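import Mathlib

/-!
# The elliptic curves `y² + a₃ y = x³ + a₆`
-/

set_option autoImplicit false

namespace Pool.Agent.L0h91.DG

open WeierstrassCurve.Affine

/-- the curve `y² + a₃ y = x³ + a₆` -/
def EC {L : Type*} [Field L] (a₃ a₆ : L) : WeierstrassCurve L := ⟨0, 0, a₃, 0, a₆⟩

set_option linter.unusedSectionVars false

variable {L : Type*} [Field L] [DecidableEq L]

theorem eqn {a₃ a₆ x y : L} (h : (EC a₃ a₆).toAffine.Nonsingular x y) :
    y ^ 2 + a₃ * y = x ^ 3 + a₆ := by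
  have h1 := (WeierstrassCurve.Affine.equation_iff _ _).1 h.1
  simp only [EC] at h1
  linear_combination h1

theorem nonsing {a₃ a₆ x y : L} (h3 : (3 : L) ≠ 0) (hb : a₃ ^ 2 + 4 * a₆ ≠ 0)
    (h : y ^ 2 + a₃ * y = x ^ 3 + a₆) : (EC a₃ a₆).toAffine.Nonsingular x y := by
  rw [WeierstrassCurve.Affine.nonsingular_iff, WeierstrassCurve.Affine.equation_iff]
  simp only [EC]
  refine ⟨by linear_combination h, ?_⟩
  by_contra hcon
  rw [not_or, not_not, not_not] at hcon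
  obtain ⟨h1, h2⟩ := hcon
  have hx : x = 0 := by
    have : 3 * x ^ 2 = 0 := by linear_combination -h1
    rcases mul_eq_zero.1 this with h' | h'
    · exact absurd h' h3
    · exact pow_eq_zero_iff (two_ne_zero) |>.1 h'
  have hy : 2 * y + a₃ = 0 := by linear_combination h2
  apply hb
  subst hx
  linear_combination (2 * y + a₃) * hy - 4 * h

/-- generic addition -/
theorem add_gen {a₃ a₆ x₁ y₁ x₂ y₂ : L} (h₁ : (EC a₃ a₆).toAffine.Nonsingular x₁ y₁)
    (h₂ : (EC a₃ a₆).toAffine.Nonsingular x₂ y₂) (hx : x₁ ≠ x₂) :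
    ∃ (x y : L) (h : (EC a₃ a₆).toAffine.Nonsingular x y),
      Point.some x₁ y₁ h₁ + Point.some x₂ y₂ h₂ = Point.some x y h ∧
      x * (x₂ - x₁) ^ 2 = (y₂ - y₁) ^ 2 - (x₁ + x₂) * (x₂ - x₁) ^ 2 ∧
      (y + y₁ + a₃) * (x₂ - x₁) = -(y₂ - y₁) * (x - x₁) := by
  refine ⟨_, _, _, Point.add_of_X_ne hx, ?_, ?_⟩
  · have hx' : x₁ - x₂ ≠ 0 := sub_ne_zero.2 hx
    rw [WeierstrassCurve.Affine.slope_of_X_ne hx]
    simp only [WeierstrassCurve.Affine.addX, EC]
    field_simp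
    ring
  · have hx' : x₁ - x₂ ≠ 0 := sub_ne_zero.2 hx
    rw [WeierstrassCurve.Affine.slope_of_X_ne hx]
    simp only [WeierstrassCurve.Affine.addX, WeierstrassCurve.Affine.addY,
      WeierstrassCurve.Affine.negAddY, WeierstrassCurve.Affine.negY, EC]
    field_simp
    ring

theorem neg_pt {a₃ a₆ x₁ y₁ : L} (h₁ : (EC a₃ a₆).toAffine.Nonsingular x₁ y₁) :
    ∃ h : (EC a₃ a₆).toAffine.Nonsingular x₁ (-y₁ - a₃),
      -Point.some x₁ y₁ h₁ = Point.some x₁ (-y₁ - a₃) h := by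
  have e : (EC a₃ a₆).toAffine.negY x₁ y₁ = -y₁ - a₃ := by
    simp only [WeierstrassCurve.Affine.negY, EC]
    ring
  have h := (WeierstrassCurve.Affine.nonsingular_neg (W' := (EC a₃ a₆).toAffine) x₁ y₁).2 h₁
  rw [e] at h
  refine ⟨h, ?_⟩
  rw [Point.neg_some]
  congr 1

/-- doubling -/
theorem dbl {a₃ a₆ x₁ y₁ : L} (h₁ : (EC a₃ a₆).toAffine.Nonsingular x₁ y₁)
    (hy : 2 * y₁ + a₃ ≠ 0) :
    ∃ (x y : L) (h : (EC a₃ a₆).toAffine.Nonsingular x y),
      Point.some x₁ y₁ h₁ + Point.some x₁ y₁ h₁ = Point.some x y h ∧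
      x * (2 * y₁ + a₃) ^ 2 = (3 * x₁ ^ 2) ^ 2 - 2 * x₁ * (2 * y₁ + a₃) ^ 2 ∧
      (y + y₁ + a₃) * (2 * y₁ + a₃) = -(3 * x₁ ^ 2) * (x - x₁) := by
  have hy' : y₁ ≠ (EC a₃ a₆).toAffine.negY x₁ y₁ := by
    simp only [WeierstrassCurve.Affine.negY, EC]
    intro h
    apply hy
    linear_combination h
  have hy'' : y₁ - (-y₁ - a₃) ≠ 0 := by
    intro h
    apply hy
    linear_combination h
  refine ⟨_, _, _, Point.add_self_of_Y_ne hy', ?_, ?_⟩
  · rw [WeierstrassCurve.Affine.slope_of_Y_ne rfl hy']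
    simp only [WeierstrassCurve.Affine.addX, WeierstrassCurve.Affine.negY, EC]
    simp only [zero_mul, sub_zero, mul_zero, add_zero]
    field_simp
    ring
  · rw [WeierstrassCurve.Affine.slope_of_Y_ne rfl hy']
    simp only [WeierstrassCurve.Affine.addX, WeierstrassCurve.Affine.addY,
      WeierstrassCurve.Affine.negAddY, WeierstrassCurve.Affine.negY, EC]
    simp only [zero_mul, sub_zero, mul_zero, add_zero]
    field_simp
    ring

/-- points with the same first coordinate -/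
theorem same_x {a₃ a₆ x y₁ y₂ : L} (h₁ : (EC a₃ a₆).toAffine.Nonsingular x y₁)
    (h₂ : (EC a₃ a₆).toAffine.Nonsingular x y₂) : y₁ = y₂ ∨ y₁ = -y₂ - a₃ := by
  have e1 := eqn h₁
  have e2 := eqn h₂
  have : (y₁ - y₂) * (y₁ + y₂ + a₃) = 0 := by linear_combination e1 - e2
  rcases mul_eq_zero.1 this with h | h
  · left; linear_combination h
  · right; linear_combination h

theorem add_neg_pt {a₃ a₆ x y₁ y₂ : L} (h₁ : (EC a₃ a₆).toAffine.Nonsingular x y₁)
    (h₂ : (EC a₃ a₆).toAffine.Nonsingular x y₂) (h : y₁ = -y₂ - a₃) :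
    Point.some x y₁ h₁ + Point.some x y₂ h₂ = 0 := by
  apply Point.add_of_Y_eq rfl
  simp only [WeierstrassCurve.Affine.negY, EC]
  linear_combination h

end Pool.Agent.L0h91.DG
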