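import Mathlib
import Pool.Agent.L0h91.DG.Curve

/-!
# Heights of the multiples of a point whose first coordinate is transcendental
-/

set_option autoImplicit false
set_option linter.unusedSectionVars false
set_option linter.unusedSimpArgs false

namespace Pool.Agent.L0h91.DG

open Polynomial WeierstrassCurve.Affine

section prim

variable {K : Type*} [Field K]

theorem exists_comb {F0 F1 F2 : K[X]}
    (h : ∀ I : Ideal K[X], I.IsPrime → F0 ∈ I → F1 ∈ I → F2 ∈ I → False) :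
    ∃ a b c, a * F0 + b * F1 + c * F2 = 1 := by
  by_contra hcon
  have hJ : Ideal.span ({F0, F1, F2} : Set K[X]) ≠ ⊤ := by
    intro hJ
    apply hcon
    have h1 : (1 : K[X]) ∈ Ideal.span ({F0, F1, F2} : Set K[X]) := by
      rw [hJ]; trivial
    obtain ⟨a, b, c, habc⟩ := Submodule.mem_span_triple.1 h1
    exact ⟨a, b, c, by simpa [smul_eq_mul] using habc⟩
  obtain ⟨M, hM, hle⟩ := Ideal.exists_le_maximal _ hJ
  exact h M hM.isPrime (hle (Ideal.subset_span (by simp)))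
    (hle (Ideal.subset_span (by simp))) (hle (Ideal.subset_span (by simp)))

theorem assoc_of_prim {F0 F1 F2 G0 G1 G2 : K[X]} (hF : ∃ a b c, a * F0 + b * F1 + c * F2 = 1)
    (hG : ∃ a b c, a * G0 + b * G1 + c * G2 = 1)
    (h1 : G0 * F1 = F0 * G1) (h2 : G0 * F2 = F0 * G2) (hF0 : F0 ≠ 0) :
    ∃ u : K, u ≠ 0 ∧ G0 = C u * F0 ∧ G1 = C u * F1 ∧ G2 = C u * F2 := by
  obtain ⟨a, b, c, habc⟩ := hF
  obtain ⟨a', b', c', habc'⟩ := hG
  have d1 : F0 ∣ G0 := ⟨a * G0 + b * G1 + c * G2, by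
    linear_combination (-G0) * habc + b * h1 + c * h2⟩
  have d2 : G0 ∣ F0 := ⟨a' * F0 + b' * F1 + c' * F2, by
    linear_combination (-F0) * habc' - b' * h1 - c' * h2⟩
  obtain ⟨w, hw⟩ := associated_of_dvd_dvd d1 d2
  obtain ⟨u, hu, hu'⟩ := Polynomial.isUnit_iff.1 w.isUnit
  have e0 : G0 = C u * F0 := by rw [← hw, ← hu', mul_comm]
  refine ⟨u, hu.ne_zero, e0, ?_, ?_⟩
  · apply mul_left_cancel₀ hF0
    rw [← h1, e0]; ring
  · apply mul_left_cancel₀ hF0
    rw [← h2, e0]; ring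

theorem prim_mul {N' D' N'' D'' : K[X]} (h' : IsCoprime N' D') (h'' : IsCoprime N'' D'') :
    ∃ a b c, a * (D' * D'') + b * (N' * D'' + N'' * D') + c * (N' * N'') = 1 := by
  have key : ∀ (I : Ideal K[X]), I.IsPrime → ∀ {A B : K[X]}, IsCoprime A B → A ∈ I → B ∈ I →
      False := by
    intro I hI A B hAB hA hB
    obtain ⟨a, b, hab⟩ := hAB
    apply hI.ne_top
    rw [Ideal.eq_top_iff_one, ← hab]
    exact I.add_mem (I.mul_mem_left _ hA) (I.mul_mem_left _ hB)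
  apply exists_comb
  intro I hI h0 h1 h2
  rcases hI.mem_or_mem h0 with hd | hd
  · have h3 : N' * D'' ∈ I := by
      have := I.sub_mem h1 (I.mul_mem_left N'' hd)
      rwa [add_sub_cancel_right] at this
    rcases hI.mem_or_mem h3 with h4 | h4
    · exact key I hI h' h4 hd
    · rcases hI.mem_or_mem h2 with h5 | h5
      · exact key I hI h' h5 hd
      · exact key I hI h'' h5 h4
  · have h3 : N'' * D' ∈ I := by
      have := I.sub_mem h1 (I.mul_mem_left N' hd)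
      rwa [add_sub_cancel_left] at this
    rcases hI.mem_or_mem h3 with h4 | h4
    · exact key I hI h'' h4 hd
    · rcases hI.mem_or_mem h2 with h5 | h5
      · exact key I hI h' h5 h4
      · exact key I hI h'' h5 hd

theorem prim_F (h3 : (3 : K) ≠ 0) {N D : K[X]} (h : IsCoprime N D) :
    ∃ a b c, a * (N - X * D) ^ 2 + b * (2 * X * N * (N + X * D) + D ^ 2) +
      c * (X ^ 2 * N ^ 2 - (X * D ^ 2 + N * D)) = 1 := by
  apply exists_comb
  intro I hI h0 h1 h2
  have hu : ∀ {A : K[X]}, A ∈ I → IsUnit A → False := by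
    intro A hA hu
    exact hI.ne_top (Ideal.eq_top_of_isUnit_mem _ hA hu)
  have h4 : N - X * D ∈ I := hI.mem_of_pow_mem _ h0
  have h5 : D ^ 2 * (4 * X ^ 3 + 1) ∈ I := by
    have : D ^ 2 * (4 * X ^ 3 + 1) = (2 * X * N * (N + X * D) + D ^ 2) -
      (2 * X * N + 4 * X ^ 2 * D) * (N - X * D) := by ring
    rw [this]
    exact I.sub_mem h1 (I.mul_mem_left _ h4)
  have h6 : D ^ 2 * (X * (X ^ 3 - 2)) ∈ I := by
    have : D ^ 2 * (X * (X ^ 3 - 2)) = (X ^ 2 * N ^ 2 - (X * D ^ 2 + N * D)) -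
      (X ^ 2 * (N + X * D) - D) * (N - X * D) := by ring
    rw [this]
    exact I.sub_mem h2 (I.mul_mem_left _ h4)
  have h7 : D ∉ I := by
    intro hD
    have hN : N ∈ I := by
      have := I.add_mem h4 (I.mul_mem_left X hD)
      rwa [sub_add_cancel] at this
    obtain ⟨a, b, hab⟩ := h
    apply hI.ne_top
    rw [Ideal.eq_top_iff_one, ← hab]
    exact I.add_mem (I.mul_mem_left _ hN) (I.mul_mem_left _ hD)
  have h7' : D ^ 2 ∉ I := fun hD => h7 (hI.mem_of_pow_mem _ hD)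
  have h8 : 4 * X ^ 3 + 1 ∈ I := (hI.mem_or_mem h5).resolve_left h7'
  have h9 : X * (X ^ 3 - 2) ∈ I := (hI.mem_or_mem h6).resolve_left h7'
  have h9' : X ^ 3 - 2 ∈ I := by
    rcases hI.mem_or_mem h9 with hX | hX
    · exfalso
      apply hu (A := 1) _ isUnit_one
      have : (1 : K[X]) = (4 * X ^ 3 + 1) - (4 * X ^ 2) * X := by ring
      rw [this]
      exact I.sub_mem h8 (I.mul_mem_left _ hX)
    · exact hX
  apply hu (A := C 9)
  · have : (C 9 : K[X]) = (4 * X ^ 3 + 1) - 4 * (X ^ 3 - 2) := by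
      have : (C 9 : K[X]) = 9 := rfl
      rw [this]; ring
    rw [this]
    exact I.sub_mem h8 (I.mul_mem_left _ h9')
  · rw [Polynomial.isUnit_C, isUnit_iff_ne_zero]
    intro h9
    apply h3
    have : (3 : K) * 3 = 0 := by rw [← h9]; norm_num
    exact mul_self_eq_zero.1 this

end prim

theorem exists_reduced {K : Type*} [Field K] (A B : K[X]) (hB : B ≠ 0) :
    ∃ N D : K[X], IsCoprime N D ∧ D ≠ 0 ∧ A * D = B * N := by
  classical
  let _ : GCDMonoid K[X] := EuclideanDomain.gcdMonoid K[X]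
  refine ⟨A / GCDMonoid.gcd A B, B / GCDMonoid.gcd A B, isCoprime_div_gcd_div_gcd hB,
    right_div_gcd_ne_zero hB, ?_⟩
  have hg : GCDMonoid.gcd A B ≠ 0 := gcd_ne_zero_of_right hB
  have h1 : GCDMonoid.gcd A B * (A / GCDMonoid.gcd A B) = A :=
    EuclideanDomain.mul_div_cancel' hg (gcd_dvd_left _ _)
  have h2 : GCDMonoid.gcd A B * (B / GCDMonoid.gcd A B) = B :=
    EuclideanDomain.mul_div_cancel' hg (gcd_dvd_right _ _)
  generalize A / GCDMonoid.gcd A B = a at h1 ⊢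
  generalize B / GCDMonoid.gcd A B = b at h2 ⊢
  linear_combination (-b) * h1 + a * h2

section sums

variable {L : Type*} [Field L] [DecidableEq L] {a₃ a₆ x₁ y₁ x₂ y₂ : L}

/-- the first coordinates of `P₂ ± P₁` -/
theorem sum_prod (h₁ : (EC a₃ a₆).toAffine.Nonsingular x₁ y₁)
    (h₂ : (EC a₃ a₆).toAffine.Nonsingular x₂ y₂) (hx : x₂ ≠ x₁) :
    ∃ (x y x' y' : L) (h : (EC a₃ a₆).toAffine.Nonsingular x y)
      (h' : (EC a₃ a₆).toAffine.Nonsingular x' y'),
      Point.some x₂ y₂ h₂ + Point.some x₁ y₁ h₁ = Point.some x y h ∧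
      Point.some x₂ y₂ h₂ - Point.some x₁ y₁ h₁ = Point.some x' y' h' ∧
      (x + x') * (x₂ - x₁) ^ 2 = 2 * x₁ * x₂ * (x₂ + x₁) + (a₃ ^ 2 + 4 * a₆) ∧
      (x * x') * (x₂ - x₁) ^ 2 = x₁ ^ 2 * x₂ ^ 2 - (a₃ ^ 2 + 4 * a₆) * (x₁ + x₂) := by
  obtain ⟨x, y, h, e1, e2, -⟩ := add_gen h₂ h₁ hx
  obtain ⟨hn, en⟩ := neg_pt h₁
  obtain ⟨x', y', h', f1, f2, -⟩ := add_gen h₂ hn hx
  refine ⟨x, y, x', y', h, h', e1, by rw [sub_eq_add_neg, en, f1], ?_, ?_⟩
  · have q1 := eqn h₁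
    have q2 := eqn h₂
    linear_combination e2 + f2 + 2 * q1 + 2 * q2
  · have q1 := eqn h₁
    have q2 := eqn h₂
    have hne : (x₂ - x₁) ^ 2 ≠ 0 := pow_ne_zero _ (sub_ne_zero.2 hx)
    apply mul_right_cancel₀ hne
    have q3 : (y₁ - y₂) * (-y₁ - a₃ - y₂) = x₂ ^ 3 - x₁ ^ 3 := by
      linear_combination q2 - q1
    have q4 : (y₁ - y₂) ^ 2 + (-y₁ - a₃ - y₂) ^ 2 =
      2 * x₁ ^ 3 + 2 * x₂ ^ 3 + (a₃ ^ 2 + 4 * a₆) := by
      linear_combination 2 * q1 + 2 * q2
    have e3 : x * (x₂ - x₁) ^ 2 = (y₁ - y₂) ^ 2 - (x₂ + x₁) * (x₁ - x₂) ^ 2 := by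
      linear_combination e2
    have f3 : x' * (x₂ - x₁) ^ 2 = (-y₁ - a₃ - y₂) ^ 2 - (x₂ + x₁) * (x₁ - x₂) ^ 2 := by
      linear_combination f2
    calc (x * x') * (x₂ - x₁) ^ 2 * (x₂ - x₁) ^ 2
        = (x * (x₂ - x₁) ^ 2) * (x' * (x₂ - x₁) ^ 2) := by ring
      _ = ((y₁ - y₂) * (-y₁ - a₃ - y₂)) ^ 2 - (x₂ + x₁) * (x₁ - x₂) ^ 2 *
          ((y₁ - y₂) ^ 2 + (-y₁ - a₃ - y₂) ^ 2) + ((x₂ + x₁) * (x₁ - x₂) ^ 2) ^ 2 := by
          rw [e3, f3]; ring
      _ = _ := by rw [q3, q4]; ring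

end sums

section height

variable {K L : Type*} [Field K] [Field L] [Algebra K L] [DecidableEq L]

/-- `x` is a fraction in `z` of degree `m ^ 2`, with a pole at infinity -/
def HD (K : Type*) {L : Type*} [Field K] [Field L] [Algebra K L] (z : L) (m : ℕ) (x : L) :
    Prop :=
  ∃ N D : K[X], IsCoprime N D ∧ N.natDegree = m ^ 2 ∧ D.natDegree < m ^ 2 ∧
    aeval z D ≠ 0 ∧ x * aeval z D = aeval z N

theorem aeval_ne {z : L} (hz : Transcendental K z) {p : K[X]} (hp : p ≠ 0) : aeval z p ≠ 0 := by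
  intro h
  exact hp (transcendental_iff.1 hz p h)

theorem aeval_inj {z : L} (hz : Transcendental K z) {p q : K[X]}
    (h : aeval z p = aeval z q) : p = q := by
  have := transcendental_iff.1 hz (p - q) (by rw [map_sub, h, sub_self])
  exact sub_eq_zero.1 this

theorem HD.ne_zero {z x : L} {m : ℕ} (hz : Transcendental K z) (hm : 1 ≤ m)
    (h : HD K z m x) : x ≠ 0 := by
  obtain ⟨N, D, hc, hN, hD, hD0, hx⟩ := h
  rintro rfl
  rw [zero_mul] at hx
  have hN0 : N ≠ 0 := by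
    rintro rfl
    rw [natDegree_zero] at hN
    have : 0 < m ^ 2 := pow_pos hm 2
    omega
  exact aeval_ne hz hN0 hx.symm

theorem HD.cube_ne {z x x' : L} {i j : ℕ} (hz : Transcendental K z)
    (h : HD K z i x) (h' : HD K z j x') (hij : i ≠ j) : x ^ 3 ≠ x' ^ 3 := by
  obtain ⟨N, D, hc, hN, hD, hD0, hx⟩ := h
  obtain ⟨N', D', hc', hN', hD', hD0', hx'⟩ := h'
  intro he
  apply hij
  have h1 : N ^ 3 * D' ^ 3 = N' ^ 3 * D ^ 3 := by
    apply aeval_inj hz
    rw [map_mul, map_mul, map_pow, map_pow, map_pow, map_pow, ← hx, ← hx', mul_pow, mul_pow, he]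
    ring
  have d1 : N ^ 3 ∣ N' ^ 3 :=
    (hc.pow (m := 3) (n := 3)).dvd_of_dvd_mul_right (Dvd.intro _ h1)
  have d2 : N' ^ 3 ∣ N ^ 3 :=
    (hc'.pow (m := 3) (n := 3)).dvd_of_dvd_mul_right (Dvd.intro _ h1.symm)
  have h2 : (N ^ 3).natDegree = (N' ^ 3).natDegree :=
    natDegree_eq_of_degree_eq (degree_eq_degree_of_associated (associated_of_dvd_dvd d1 d2))
  rw [natDegree_pow, natDegree_pow, hN, hN'] at h2
  have h3 : i ^ 2 = j ^ 2 := by omega
  exact Nat.pow_left_injective (n := 2) (by norm_num) h3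

theorem HD.one (z : L) : HD K z 1 z := by
  refine ⟨X, 1, isCoprime_one_right, by simp, by simp, by simp, by simp⟩

theorem HD.ne_base {z x : L} {m : ℕ} (hz : Transcendental K z) (hm : 2 ≤ m)
    (h : HD K z m x) : x ≠ z := by
  intro hx
  exact HD.cube_ne hz h (HD.one z) (by omega) (by rw [hx])

theorem HD.two {a₃ a₆ z y₁ : L} (h3 : (3 : K) ≠ 0) (hb : a₃ ^ 2 + 4 * a₆ = 1)
    (hz : Transcendental K z) (h₁ : (EC a₃ a₆).toAffine.Nonsingular z y₁) :
    ∃ (x y : L) (h : (EC a₃ a₆).toAffine.Nonsingular x y),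
      (2 : ℕ) • Point.some z y₁ h₁ = Point.some x y h ∧ HD K z 2 x := by
  have q1 := eqn h₁
  have e4 : (2 * y₁ + a₃) ^ 2 = aeval z (4 * X ^ 3 + 1 : K[X]) := by
    simp only [map_add, map_mul, map_pow, aeval_X, map_ofNat, map_one]
    linear_combination 4 * q1 + hb
  have hp : (4 * X ^ 3 + 1 : K[X]) ≠ 0 := by
    intro h0
    have := congrArg (eval 0) h0
    simp at this
  have hy : 2 * y₁ + a₃ ≠ 0 := by
    intro h0
    rw [h0] at e4
    exact aeval_ne hz hp (by rw [← e4]; ring)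
  obtain ⟨x, y, h, e1, e2, -⟩ := dbl h₁ hy
  refine ⟨x, y, h, by rw [two_nsmul, e1], X ^ 4 - 2 * X, 4 * X ^ 3 + 1, ?_, ?_, ?_,
    aeval_ne hz hp, ?_⟩
  · have h9 : (9 : K) ≠ 0 := by
      intro h9
      apply h3
      have : (3 : K) * 3 = 0 := by rw [← h9]; norm_num
      exact mul_self_eq_zero.1 this
    refine ⟨C (9⁻¹) * (16 * X ^ 2), C (9⁻¹) * (9 - 4 * X ^ 3), ?_⟩
    have h10 : (C (9⁻¹) : K[X]) * 9 = 1 := by
      have : (9 : K[X]) = C 9 := rfl
      rw [this, ← C_mul, inv_mul_cancel₀ h9, C_1]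
    linear_combination h10
  · have : (X ^ 4 - 2 * X : K[X]).natDegree = 4 := by compute_degree!
    rw [this]; norm_num
  · have : (4 * X ^ 3 + 1 : K[X]).natDegree ≤ 3 := by compute_degree
    omega
  · rw [← e4, e2]
    simp only [map_sub, map_mul, map_pow, aeval_X, map_ofNat]
    linear_combination (-2 * z) * (4 * q1 + hb)

/-- the inductive step -/
theorem HD.step {a₃ a₆ z y₁ x x' y y' : L} {m : ℕ} (h3 : (3 : K) ≠ 0)
    (hb : a₃ ^ 2 + 4 * a₆ = 1)
    (hz : Transcendental K z) (h₁ : (EC a₃ a₆).toAffine.Nonsingular z y₁)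
    (h : (EC a₃ a₆).toAffine.Nonsingular x y) (hm : 2 ≤ m)
    (hx : HD K z m x)
    (h' : (EC a₃ a₆).toAffine.Nonsingular x' y')
    (hs : Point.some x y h - Point.some z y₁ h₁ = Point.some x' y' h')
    (hx' : HD K z (m - 1) x') :
    ∃ (x'' y'' : L) (h'' : (EC a₃ a₆).toAffine.Nonsingular x'' y''),
      Point.some x y h + Point.some z y₁ h₁ = Point.some x'' y'' h'' ∧
        HD K z (m + 1) x'' := by
  have hne := hx.ne_base hz hm
  obtain ⟨x'', y'', x₀, y₀, h'', h₀, e1, e2, e3, e4⟩ := sum_prod h₁ h hne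
  have hxx : x₀ = x' := by
    rw [hs] at e2
    simp only [Point.some.injEq] at e2
    exact e2.1.symm
  subst hxx
  rw [hb] at e3 e4
  obtain ⟨N, D, hc, hN, hD, hD0, hND⟩ := hx
  obtain ⟨N', D', hc', hN', hD', hD0', hND'⟩ := hx'
  -- the three forms
  obtain ⟨F0, hF0⟩ : ∃ F0, F0 = (N - X * D) ^ 2 := ⟨_, rfl⟩
  obtain ⟨F1, hF1⟩ : ∃ F1, F1 = 2 * X * N * (N + X * D) + D ^ 2 := ⟨_, rfl⟩
  obtain ⟨F2, hF2⟩ : ∃ F2, F2 = X ^ 2 * N ^ 2 - (X * D ^ 2 + N * D) := ⟨_, rfl⟩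
  have v0 : aeval z F0 = aeval z D ^ 2 * (x - z) ^ 2 := by
    rw [hF0]; simp only [map_pow, map_sub, map_mul, aeval_X, ← hND]; ring
  have v1 : aeval z F1 = aeval z D ^ 2 * (2 * z * x * (x + z) + 1) := by
    rw [hF1]; simp only [map_pow, map_add, map_mul, aeval_X, ← hND, map_ofNat]; ring
  have v2 : aeval z F2 = aeval z D ^ 2 * (z ^ 2 * x ^ 2 - 1 * (z + x)) := by
    rw [hF2]; simp only [map_pow, map_add, map_sub, map_mul, aeval_X, ← hND]; ring
  have hF0' : F0 ≠ 0 := by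
    rintro rfl
    rw [map_zero] at v0
    exact mul_ne_zero (pow_ne_zero 2 hD0) (pow_ne_zero 2 (sub_ne_zero.2 hne)) v0.symm
  have hD'0 : D' ≠ 0 := by rintro rfl; exact hD0' (map_zero _)
  obtain ⟨N'', D'', hc'', hD''0, hAB⟩ :=
    exists_reduced (F1 * D' - F0 * N') (F0 * D') (mul_ne_zero hF0' hD'0)
  have hD0'' : aeval z D'' ≠ 0 := aeval_ne hz hD''0
  have hzF0 : aeval z F0 ≠ 0 := aeval_ne hz hF0'
  have s1 : (x'' + x₀) * aeval z F0 = aeval z F1 := by rw [v0, v1, ← e3]; ring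
  have s2 : (x'' * x₀) * aeval z F0 = aeval z F2 := by rw [v0, v2, ← e4]; ring
  have hND'' : x'' * aeval z D'' = aeval z N'' := by
    have := congrArg (aeval z) hAB
    simp only [map_mul, map_sub] at this
    apply mul_left_cancel₀ (mul_ne_zero hzF0 hD0')
    rw [← this, ← s1, ← hND']
    ring
  have r1 : (D' * D'') * F1 = F0 * (N' * D'' + N'' * D') := by
    apply aeval_inj hz
    simp only [map_mul, map_add]
    rw [← s1, ← hND', ← hND'']
    ring
  have r2 : (D' * D'') * F2 = F0 * (N' * N'') := by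
    apply aeval_inj hz
    simp only [map_mul]
    rw [← s2, ← hND', ← hND'']
    ring
  obtain ⟨u, hu, g0, g1, g2⟩ := assoc_of_prim (by rw [hF0, hF1, hF2]; exact prim_F h3 hc)
    (prim_mul hc' hc'') r1 r2 hF0'
  -- degrees
  have hN0 : N ≠ 0 := by
    rintro rfl
    rw [natDegree_zero] at hN
    have : 0 < m ^ 2 := pow_pos (by omega) 2
    omega
  have hN'0 : N' ≠ 0 := by
    rintro rfl
    rw [natDegree_zero] at hN'
    have : 0 < (m - 1) ^ 2 := pow_pos (by omega) 2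
    omega
  have k2 : F2.natDegree = 2 * m ^ 2 + 2 := by
    have a1 : (X ^ 2 * N ^ 2 : K[X]).natDegree = 2 * m ^ 2 + 2 := by
      rw [natDegree_mul (pow_ne_zero 2 X_ne_zero) (pow_ne_zero 2 hN0), natDegree_pow,
        natDegree_pow, natDegree_X, hN]; ring
    have a2 : (X * D ^ 2 + N * D : K[X]).natDegree < 2 * m ^ 2 + 2 := by
      refine lt_of_le_of_lt (natDegree_add_le _ _) (max_lt ?_ ?_)
      · refine lt_of_le_of_lt natDegree_mul_le ?_
        rw [natDegree_pow, natDegree_X]; omega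
      · refine lt_of_le_of_lt natDegree_mul_le ?_
        omega
    rw [hF2, natDegree_sub_eq_left_of_natDegree_lt (by rw [a1]; exact a2), a1]
  have k1 : F1.natDegree ≤ 2 * m ^ 2 + 1 := by
    rw [hF1]
    refine (natDegree_add_le _ _).trans (max_le ?_ ?_)
    · refine natDegree_mul_le.trans ?_
      have b1 : (2 * X * N : K[X]).natDegree ≤ 1 + m ^ 2 := by
        refine natDegree_mul_le.trans ?_
        have : (2 * X : K[X]).natDegree ≤ 1 := by compute_degree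
        omega
      have b2 : (N + X * D : K[X]).natDegree ≤ m ^ 2 := by
        refine (natDegree_add_le _ _).trans (max_le hN.le ?_)
        refine natDegree_mul_le.trans ?_
        rw [natDegree_X]; omega
      omega
    · rw [natDegree_pow]; omega
  have hN''0 : N'' ≠ 0 := by
    rintro rfl
    rw [mul_zero] at g2
    have : F2 = 0 := by
      rcases mul_eq_zero.1 g2.symm with h0 | h0
      · exact absurd (C_eq_zero.1 h0) hu
      · exact h0
    rw [this, natDegree_zero] at k2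
    omega
  have sq : (m - 1) ^ 2 + (m + 1) ^ 2 = 2 * m ^ 2 + 2 := by
    obtain ⟨k, rfl⟩ : ∃ k, m = k + 1 := ⟨m - 1, by omega⟩
    simp only [Nat.add_sub_cancel]; ring
  have k3 : N''.natDegree = (m + 1) ^ 2 := by
    have := congrArg natDegree g2
    rw [natDegree_mul hN'0 hN''0, natDegree_C_mul hu, k2, hN'] at this
    omega
  refine ⟨x'', y'', h'', e1, N'', D'', hc'', k3, ?_, hD0'', hND''⟩
  by_contra hcon
  rw [not_lt] at hcon
  have t1 : (N' * D'').natDegree = (m - 1) ^ 2 + D''.natDegree := by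
    rw [natDegree_mul hN'0 hD''0, hN']
  have t2 : (N'' * D').natDegree < (N' * D'').natDegree := by
    rw [t1]
    refine lt_of_le_of_lt natDegree_mul_le ?_
    omega
  have t3 := congrArg natDegree g1
  rw [natDegree_add_eq_left_of_natDegree_lt t2, t1, natDegree_C_mul hu] at t3
  omega

/-- all multiples of a point with transcendental first coordinate -/
theorem HD.all {a₃ a₆ z y₁ : L} (h3 : (3 : K) ≠ 0) (hb : a₃ ^ 2 + 4 * a₆ = 1)
    (hz : Transcendental K z) (h₁ : (EC a₃ a₆).toAffine.Nonsingular z y₁) (m : ℕ)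
    (hm : 1 ≤ m) :
    ∃ (x y : L) (h : (EC a₃ a₆).toAffine.Nonsingular x y),
      m • Point.some z y₁ h₁ = Point.some x y h ∧ HD K z m x := by
  induction m using Nat.strong_induction_on with
  | _ m ih =>
    rcases Nat.lt_or_ge m 3 with hm3 | hm3
    · obtain rfl | rfl : m = 1 ∨ m = 2 := by omega
      · exact ⟨z, y₁, h₁, one_nsmul _, HD.one z⟩
      · exact HD.two h3 hb hz h₁
    · obtain ⟨k, rfl⟩ : ∃ k, m = k + 1 := ⟨m - 1, by omega⟩
      obtain ⟨x, y, h, e, hx⟩ := ih k (by omega) (by omega)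
      obtain ⟨x', y', h', e', hx'⟩ := ih (k - 1) (by omega) (by omega)
      obtain ⟨x'', y'', h'', e'', hx''⟩ := HD.step h3 hb hz h₁ h (by omega) hx h' (by
        rw [← e, ← e']
        obtain ⟨j, rfl⟩ : ∃ j, k = j + 1 := ⟨k - 1, by omega⟩
        rw [Nat.add_sub_cancel, succ_nsmul, add_sub_cancel_right]) hx'
      exact ⟨x'', y'', h'', by rw [succ_nsmul, e, e''], hx''⟩

end height

end Pool.Agent.L0h91.DG
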