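import Mathlib
import Pool.Agent.L0h91.DG.Height

/-!
# Degrees of rational functions and of multiples of points over a rational function field
-/

set_option autoImplicit false
set_option linter.unusedSectionVars false
set_option linter.unusedSimpArgs false

namespace Pool.Agent.L0h91.DG

open MvPolynomial WeierstrassCurve.Affine

section cx

variable {K : Type*} [Field K]

/-- the field of fractions of the polynomial ring in four variables -/
abbrev FF (K : Type*) [Field K] : Type _ := FractionRing (MvPolynomial (Fin 4) K)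

/-- the inclusion of the polynomial ring -/
noncomputable abbrev io (K : Type*) [Field K] : MvPolynomial (Fin 4) K →+* FF K :=
  algebraMap _ _

theorem io_ne {p : MvPolynomial (Fin 4) K} (hp : p ≠ 0) : io K p ≠ 0 := by
  intro h
  exact hp ((IsFractionRing.injective (MvPolynomial (Fin 4) K) (FF K)) (by rw [h, map_zero]))

theorem io_inj {p q : MvPolynomial (Fin 4) K} (h : io K p = io K q) : p = q :=
  (IsFractionRing.injective (MvPolynomial (Fin 4) K) (FF K)) h

/-- `x` is a quotient of two forms of degree `D` -/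
def Cx (D : ℕ) (x : FF K) : Prop :=
  ∃ p q : MvPolynomial (Fin 4) K, p.IsHomogeneous D ∧ q.IsHomogeneous D ∧ q ≠ 0 ∧
    x * io K q = io K p

theorem Cx.mk {D : ℕ} {x : FF K} (p q : MvPolynomial (Fin 4) K) (hp : p.IsHomogeneous D)
    (hq : q.IsHomogeneous D) (hq0 : q ≠ 0) (h : x * io K q = io K p) : Cx D x :=
  ⟨p, q, hp, hq, hq0, h⟩

theorem Cx.mono {D D' : ℕ} {x : FF K} (h : Cx D x) (hD : D ≤ D') : Cx D' x := by
  obtain ⟨p, q, hp, hq, hq0, hx⟩ := h
  obtain ⟨e, rfl⟩ := Nat.exists_eq_add_of_le hD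
  have hX : ((X 0 : MvPolynomial (Fin 4) K) ^ e).IsHomogeneous e := by
    have := (isHomogeneous_X K (0 : Fin 4)).pow e
    rwa [one_mul] at this
  refine ⟨p * X 0 ^ e, q * X 0 ^ e, hp.mul hX, hq.mul hX,
    mul_ne_zero hq0 (pow_ne_zero _ (X_ne_zero _)), ?_⟩
  rw [map_mul, map_mul, ← hx]; ring

theorem Cx.zero (D : ℕ) : Cx D (0 : FF K) := by
  refine Cx.mono (D := 0) ⟨0, 1, isHomogeneous_zero _ _ _, isHomogeneous_one _ _, one_ne_zero, ?_⟩
    (Nat.zero_le _)
  rw [zero_mul, map_zero]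

theorem Cx.ofNat (n : ℕ) [n.AtLeastTwo] : Cx 0 (OfNat.ofNat n : FF K) := by
  refine ⟨C (OfNat.ofNat n), 1, isHomogeneous_C _ _, isHomogeneous_one _ _, one_ne_zero, ?_⟩
  rw [map_one, mul_one]
  have : (C (OfNat.ofNat n) : MvPolynomial (Fin 4) K) = OfNat.ofNat n := by
    rw [map_ofNat]
  rw [this, map_ofNat]

theorem Cx.add {D D' : ℕ} {x x' : FF K} (h : Cx D x) (h' : Cx D' x') :
    Cx (D + D') (x + x') := by
  obtain ⟨p, q, hp, hq, hq0, hx⟩ := h
  obtain ⟨p', q', hp', hq', hq0', hx'⟩ := h'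
  refine ⟨p * q' + q * p', q * q', (hp.mul hq').add (hq.mul hp'), hq.mul hq',
    mul_ne_zero hq0 hq0', ?_⟩
  simp only [map_mul, map_add]
  rw [← hx, ← hx']; ring

theorem Cx.mul {D D' : ℕ} {x x' : FF K} (h : Cx D x) (h' : Cx D' x') :
    Cx (D + D') (x * x') := by
  obtain ⟨p, q, hp, hq, hq0, hx⟩ := h
  obtain ⟨p', q', hp', hq', hq0', hx'⟩ := h'
  refine ⟨p * p', q * q', hp.mul hp', hq.mul hq', mul_ne_zero hq0 hq0', ?_⟩
  simp only [map_mul]
  rw [← hx, ← hx']; ring

theorem Cx.neg {D : ℕ} {x : FF K} (h : Cx D x) : Cx D (-x) := by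
  obtain ⟨p, q, hp, hq, hq0, hx⟩ := h
  exact ⟨-p, q, hp.neg, hq, hq0, by rw [map_neg, ← hx]; ring⟩

theorem Cx.sub {D D' : ℕ} {x x' : FF K} (h : Cx D x) (h' : Cx D' x') :
    Cx (D + D') (x - x') := by
  rw [sub_eq_add_neg]; exact h.add h'.neg

theorem Cx.pow {D : ℕ} {x : FF K} (h : Cx D x) (n : ℕ) : Cx (D * n) (x ^ n) := by
  obtain ⟨p, q, hp, hq, hq0, hx⟩ := h
  exact ⟨p ^ n, q ^ n, hp.pow n, hq.pow n, pow_ne_zero _ hq0, by
    rw [map_pow, map_pow, ← hx]; ring⟩

theorem Cx.inv {D : ℕ} {x : FF K} (h : Cx D x) : Cx D x⁻¹ := by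
  by_cases h0 : x = 0
  · rw [h0, inv_zero]; exact Cx.zero D
  · obtain ⟨p, q, hp, hq, hq0, hx⟩ := h
    have hp0 : p ≠ 0 := by
      rintro rfl
      rw [map_zero] at hx
      rcases mul_eq_zero.1 hx with h | h
      · exact h0 h
      · exact io_ne hq0 h
    refine ⟨q, p, hq, hp, hp0, ?_⟩
    rw [← hx, ← mul_assoc, inv_mul_cancel₀ h0, one_mul]

theorem Cx.div {D D' : ℕ} {x x' : FF K} (h : Cx D x) (h' : Cx D' x') :
    Cx (D + D') (x / x') := by
  rw [div_eq_mul_inv]; exact h.mul h'.inv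

/-- doubling, with the right growth -/
theorem Cx.dblx {D k : ℕ} {x β y : FF K} (h : Cx D x) (hβ : Cx k β)
    (hy : y * (4 * x ^ 3 + β) = x * (x ^ 3 - 2 * β)) (h0 : 4 * x ^ 3 + β ≠ 0) :
    Cx (4 * D + k) y := by
  obtain ⟨p, q, hp, hq, hq0, hx⟩ := h
  obtain ⟨r, s, hr, hs, hs0, hrs⟩ := hβ
  have e1 : io K (q * (4 * p ^ 3 * s + q ^ 3 * r)) =
      io K q ^ 4 * io K s * (4 * x ^ 3 + β) := by
    simp only [map_mul, map_add, map_pow, map_ofNat]
    rw [← hx, ← hrs]; ring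
  have e2 : io K (p * (p ^ 3 * s - 2 * q ^ 3 * r)) =
      io K q ^ 4 * io K s * (x * (x ^ 3 - 2 * β)) := by
    simp only [map_mul, map_sub, map_pow, map_ofNat]
    rw [← hx, ← hrs]; ring
  have h4 : (4 : MvPolynomial (Fin 4) K).IsHomogeneous 0 := by
    have := isHomogeneous_C (σ := Fin 4) (4 : K)
    rwa [map_ofNat] at this
  have h2 : (2 : MvPolynomial (Fin 4) K).IsHomogeneous 0 := by
    have := isHomogeneous_C (σ := Fin 4) (2 : K)
    rwa [map_ofNat] at this
  refine ⟨p * (p ^ 3 * s - 2 * q ^ 3 * r), q * (4 * p ^ 3 * s + q ^ 3 * r), ?_, ?_, ?_, ?_⟩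
  · have g1 : (p ^ 3 * s).IsHomogeneous (3 * D + k) := by
      have := (hp.pow 3).mul hs
      rwa [mul_comm D 3] at this
    have g2 : (2 * q ^ 3 * r).IsHomogeneous (3 * D + k) := by
      have := (h2.mul (hq.pow 3)).mul hr
      rwa [mul_comm D 3, zero_add] at this
    have := hp.mul (g1.sub g2)
    convert this using 1
    ring
  · have g1 : (4 * p ^ 3 * s).IsHomogeneous (3 * D + k) := by
      have := (h4.mul (hp.pow 3)).mul hs
      rwa [mul_comm D 3, zero_add] at this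
    have g2 : (q ^ 3 * r).IsHomogeneous (3 * D + k) := by
      have := (hq.pow 3).mul hr
      rwa [mul_comm D 3] at this
    have := hq.mul (g1.add g2)
    convert this using 1
    ring
  · intro h
    rw [h, map_zero] at e1
    exact mul_ne_zero (mul_ne_zero (pow_ne_zero _ (io_ne hq0)) (io_ne hs0)) h0 e1.symm
  · rw [e1, e2, ← hy]; ring

/-- addition, with the right growth -/
theorem Cx.addx {D D' k : ℕ} {x x' β y : FF K} (h : Cx D x) (h' : Cx D' x') (hβ : Cx k β)
    (hy : y * (x' - x) ^ 2 = 2 * x * x' * (x' + x) + β) (h0 : x' ≠ x) :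
    Cx (2 * D + 2 * D' + k) y := by
  obtain ⟨p, q, hp, hq, hq0, hx⟩ := h
  obtain ⟨p', q', hp', hq', hq0', hx'⟩ := h'
  obtain ⟨r, s, hr, hs, hs0, hrs⟩ := hβ
  have h0' : x' - x ≠ 0 := sub_ne_zero.2 h0
  have e1 : io K (s * (q * p' - p * q') ^ 2) =
      io K q ^ 2 * io K q' ^ 2 * io K s * (x' - x) ^ 2 := by
    simp only [map_mul, map_sub, map_pow]
    rw [← hx, ← hx']; ring
  have e2 : io K (2 * p * p' * (q * p' + p * q') * s + q ^ 2 * q' ^ 2 * r) =
      io K q ^ 2 * io K q' ^ 2 * io K s * (2 * x * x' * (x' + x) + β) := by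
    simp only [map_mul, map_add, map_pow, map_ofNat]
    rw [← hx, ← hx', ← hrs]; ring
  have h2 : (2 : MvPolynomial (Fin 4) K).IsHomogeneous 0 := by
    have := isHomogeneous_C (σ := Fin 4) (2 : K)
    rwa [map_ofNat] at this
  refine ⟨2 * p * p' * (q * p' + p * q') * s + q ^ 2 * q' ^ 2 * r, s * (q * p' - p * q') ^ 2,
    ?_, ?_, ?_, ?_⟩
  · have g1 : (2 * p * p' * (q * p' + p * q') * s).IsHomogeneous (2 * D + 2 * D' + k) := by
      have := (((h2.mul hp).mul hp').mul ((hq.mul hp').add (hp.mul hq'))).mul hs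
      convert this using 1
      ring
    have g2 : (q ^ 2 * q' ^ 2 * r).IsHomogeneous (2 * D + 2 * D' + k) := by
      have := ((hq.pow 2).mul (hq'.pow 2)).mul hr
      convert this using 1
      ring
    exact g1.add g2
  · have := hs.mul (((hq.mul hp').sub (hp.mul hq')).pow 2)
    convert this using 1
    ring
  · intro h
    rw [h, map_zero] at e1
    exact mul_ne_zero (mul_ne_zero (mul_ne_zero (pow_ne_zero _ (io_ne hq0))
      (pow_ne_zero _ (io_ne hq0'))) (io_ne hs0)) (pow_ne_zero _ h0') e1.symm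
  · rw [e1, e2, ← hy]; ring

end cx

end Pool.Agent.L0h91.DG
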