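import Mathlib
import Pool.Agent.L0h91.DG.Cx

/-!
# Degrees of the coordinates of combinations of points
-/

set_option autoImplicit false
set_option linter.unusedSectionVars false
set_option linter.unusedSimpArgs false

namespace Pool.Agent.L0h91.DG

open WeierstrassCurve.Affine

section cxpt

variable {K : Type*} [Field K] [DecidableEq (FF K)] {a₃ a₆ : FF K}

/-- the coordinates of the point are quotients of forms of degree `D` -/
def CxPt (D : ℕ) (A : (EC a₃ a₆).toAffine.Point) : Prop :=
  ∀ (x y : FF K) (h : (EC a₃ a₆).toAffine.Nonsingular x y), A = Point.some x y h →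
    Cx D x ∧ Cx D y

theorem CxPt.mono {D D' : ℕ} {A : (EC a₃ a₆).toAffine.Point} (h : CxPt D A) (hD : D ≤ D') :
    CxPt D' A := fun x y g e => ⟨(h x y g e).1.mono hD, (h x y g e).2.mono hD⟩

theorem CxPt.add {k D : ℕ} {A B : (EC a₃ a₆).toAffine.Point} (hk : Cx k a₃)
    (hA : CxPt D A) (hB : CxPt D B) : CxPt (40 * (D + k)) (A + B) := by
  intro x y h e
  rcases A with _ | ⟨x₁, y₁, h₁⟩
  · rw [← Point.zero_def, zero_add] at e
    exact ⟨(hB x y h e).1.mono (by omega), (hB x y h e).2.mono (by omega)⟩
  rcases B with _ | ⟨x₂, y₂, h₂⟩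
  · rw [← Point.zero_def, add_zero] at e
    exact ⟨(hA x y h e).1.mono (by omega), (hA x y h e).2.mono (by omega)⟩
  obtain ⟨cx1, cy1⟩ := hA _ _ _ rfl
  obtain ⟨cx2, cy2⟩ := hB _ _ _ rfl
  by_cases hx : x₁ = x₂
  · subst hx
    rcases same_x h₁ h₂ with hy | hy
    · subst hy
      by_cases h2 : 2 * y₁ + a₃ = 0
      · rw [add_neg_pt h₁ h₂ (by linear_combination h2)] at e
        exact absurd e.symm (Point.some_ne_zero _)
      · obtain ⟨u, w, g, e1, e2, e3⟩ := dbl h₁ h2
        rw [e1] at e
        simp only [Point.some.injEq] at e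
        obtain ⟨rfl, rfl⟩ := e
        have c1 : Cx (D + D + k) (2 * y₁ + a₃) :=
          (((Cx.ofNat 2).mul cy1).add hk).mono (by omega)
        have hu : u = ((3 * x₁ ^ 2) ^ 2 - 2 * x₁ * (2 * y₁ + a₃) ^ 2) /
            (2 * y₁ + a₃) ^ 2 := by
          rw [← e2, mul_div_assoc, div_self (pow_ne_zero _ h2), mul_one]
        have cu : Cx (15 * (D + k)) u := by
          rw [hu]
          exact ((((((Cx.ofNat 3).mul (cx1.pow 2)).pow 2).sub
            (((Cx.ofNat 2).mul cx1).mul (c1.pow 2))).div (c1.pow 2))).mono (by omega)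
        have hw : w = -(3 * x₁ ^ 2) * (u - x₁) / (2 * y₁ + a₃) - y₁ - a₃ := by
          rw [← e3, mul_div_assoc, div_self h2]; ring
        refine ⟨cu.mono (by omega), ?_⟩
        rw [hw]
        exact (((((((Cx.ofNat 3).mul (cx1.pow 2)).neg).mul (cu.sub cx1)).div c1).sub cy1).sub
          hk).mono (by omega)
    · rw [add_neg_pt h₁ h₂ hy] at e
      exact absurd e.symm (Point.some_ne_zero _)
  · obtain ⟨u, w, g, e1, e2, e3⟩ := add_gen h₁ h₂ hx
    rw [e1] at e
    simp only [Point.some.injEq] at e
    obtain ⟨rfl, rfl⟩ := e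
    have hx' : x₂ - x₁ ≠ 0 := sub_ne_zero.2 (Ne.symm hx)
    have hu : u = ((y₂ - y₁) ^ 2 - (x₁ + x₂) * (x₂ - x₁) ^ 2) / (x₂ - x₁) ^ 2 := by
      rw [← e2, mul_div_assoc, div_self (pow_ne_zero _ hx'), mul_one]
    have cu : Cx (15 * (D + k)) u := by
      rw [hu]
      exact ((((cy2.sub cy1).pow 2).sub ((cx1.add cx2).mul ((cx2.sub cx1).pow 2))).div
        ((cx2.sub cx1).pow 2)).mono (by omega)
    have hw : w = -(y₂ - y₁) * (u - x₁) / (x₂ - x₁) - y₁ - a₃ := by
      rw [← e3, mul_div_assoc, div_self hx']; ring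
    refine ⟨cu.mono (by omega), ?_⟩
    rw [hw]
    exact ((((((cy2.sub cy1).neg).mul (cu.sub cx1)).div (cx2.sub cx1)).sub cy1).sub
      hk).mono (by omega)

theorem cx_b {k : ℕ} (hk : Cx k a₃) (hk6 : Cx k a₆) : Cx (3 * k) (a₃ ^ 2 + 4 * a₆) :=
  ((hk.pow 2).add ((Cx.ofNat 4).mul hk6)).mono (by omega)

/-- the first coordinates of the multiples of a point -/
theorem mult_cx_x {k : ℕ} {x₁ y₁ : FF K} (h₁ : (EC a₃ a₆).toAffine.Nonsingular x₁ y₁)
    (hb : Cx k (a₃ ^ 2 + 4 * a₆)) (hx : Cx k x₁) (m : ℕ) (hm : 1 ≤ m) :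
    ∀ (x y : FF K) (h : (EC a₃ a₆).toAffine.Nonsingular x y),
      m • Point.some x₁ y₁ h₁ = Point.some x y h → Cx (3 * k * m ^ 2 - 2 * k) x := by
  induction m using Nat.strong_induction_on with
  | _ m ih =>
    intro x y h e
    rcases Nat.lt_or_ge m 2 with hm2 | hm2
    · obtain rfl : m = 1 := by omega
      rw [one_nsmul] at e
      simp only [Point.some.injEq] at e
      obtain ⟨rfl, rfl⟩ := e
      exact hx.mono (by omega)
    · rcases Nat.even_or_odd' m with ⟨j, hj | hj⟩
      · -- even
        subst hj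
        have hj1 : 1 ≤ j := by omega
        have e' : j • Point.some x₁ y₁ h₁ + j • Point.some x₁ y₁ h₁ = Point.some x y h := by
          rw [← two_nsmul, ← mul_nsmul', e]
        have ihj := ih j (by omega) hj1
        rcases hjP : j • Point.some x₁ y₁ h₁ with _ | ⟨u, w, g⟩
        · rw [hjP, ← Point.zero_def, zero_add] at e'
          exact absurd e'.symm (Point.some_ne_zero _)
        · have cu := ihj u w g hjP
          rw [hjP] at e'
          by_cases h2 : 2 * w + a₃ = 0
          · rw [add_neg_pt g g (by linear_combination h2)] at e'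
            exact absurd e'.symm (Point.some_ne_zero _)
          · obtain ⟨u', w', g', e1, e2, e3⟩ := dbl g h2
            rw [e1] at e'
            simp only [Point.some.injEq] at e'
            obtain ⟨rfl, rfl⟩ := e'
            have q := eqn g
            have h4 : (2 * w + a₃) ^ 2 = 4 * u ^ 3 + (a₃ ^ 2 + 4 * a₆) := by
              linear_combination 4 * q
            rw [h4] at e2
            have := Cx.dblx cu hb (y := u') (by linear_combination e2)
              (by rw [← h4]; exact pow_ne_zero _ h2)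
            refine this.mono ?_
            have : 3 * k ≤ 3 * k * j ^ 2 := Nat.le_mul_of_pos_right _ (pow_pos hj1 2)
            have e5 : 3 * k * (2 * j) ^ 2 = 4 * (3 * k * j ^ 2) := by ring
            rw [e5]
            omega
      · -- odd
        subst hj
        have hj1 : 1 ≤ j := by omega
        have ihj := ih j (by omega) hj1
        have ihj' := ih (j + 1) (by omega) (by omega)
        have e' : (j + 1) • Point.some x₁ y₁ h₁ + j • Point.some x₁ y₁ h₁ =
            Point.some x y h := by
          rw [← add_nsmul, ← e]; congr 1; ring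
        have e'' : (j + 1) • Point.some x₁ y₁ h₁ - j • Point.some x₁ y₁ h₁ =
            Point.some x₁ y₁ h₁ := by
          rw [succ_nsmul, add_sub_cancel_left]
        have hbig : k ≤ 3 * k * (2 * j + 1) ^ 2 - 2 * k := by
          have : 3 * k ≤ 3 * k * (2 * j + 1) ^ 2 :=
            Nat.le_mul_of_pos_right _ (pow_pos (by omega) 2)
          omega
        rcases hjP : j • Point.some x₁ y₁ h₁ with _ | ⟨u, w, g⟩
        · rw [hjP, ← Point.zero_def] at e' e''
          rw [add_zero] at e'
          rw [sub_zero, e'] at e''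
          simp only [Point.some.injEq] at e''
          obtain ⟨rfl, rfl⟩ := e''
          exact hx.mono hbig
        · rcases hjP' : (j + 1) • Point.some x₁ y₁ h₁ with _ | ⟨u', w', g'⟩
          · rw [hjP', ← Point.zero_def] at e' e''
            rw [zero_add] at e'
            rw [zero_sub, e'] at e''
            obtain ⟨hn, en⟩ := neg_pt h
            rw [en] at e''
            simp only [Point.some.injEq] at e''
            obtain ⟨rfl, -⟩ := e''
            exact hx.mono hbig
          · rw [hjP, hjP'] at e' e''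
            by_cases hxx : u' = u
            · subst hxx
              exfalso
              rcases same_x g' g with hy | hy
              · subst hy
                rw [sub_self] at e''
                exact absurd e''.symm (Point.some_ne_zero _)
              · rw [add_neg_pt g' g hy] at e'
                exact absurd e'.symm (Point.some_ne_zero _)
            · obtain ⟨s, s', t, t', gs, gt, f1, f2, f3, f4⟩ := sum_prod g g' hxx
              rw [f1] at e'
              rw [f2] at e''
              simp only [Point.some.injEq] at e' e''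
              obtain ⟨rfl, rfl⟩ := e'
              obtain ⟨rfl, rfl⟩ := e''
              have c1 := ihj u w g hjP
              have c2 := ihj' u' w' g' hjP'
              have c3 := (Cx.addx c1 c2 hb f3 hxx).sub hx
              rw [add_sub_cancel_right] at c3
              refine c3.mono ?_
              have l1 : 3 * k ≤ 3 * k * j ^ 2 := Nat.le_mul_of_pos_right _ (pow_pos hj1 2)
              have l2 : 3 * k ≤ 3 * k * (j + 1) ^ 2 :=
                Nat.le_mul_of_pos_right _ (pow_pos (by omega) 2)
              have e5 : 3 * k * (2 * j + 1) ^ 2 + 3 * k =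
                  2 * (3 * k * j ^ 2) + 2 * (3 * k * (j + 1) ^ 2) := by ring
              omega

/-- both coordinates of the multiples of a point -/
theorem mult_cx {k : ℕ} {x₁ y₁ : FF K} (h₁ : (EC a₃ a₆).toAffine.Nonsingular x₁ y₁)
    (hb : Cx k (a₃ ^ 2 + 4 * a₆)) (h3 : Cx k a₃) (hx : Cx k x₁) (hy : Cx k y₁) (m : ℕ)
    (hm : 1 ≤ m) : CxPt (100 * k * m ^ 2) (m • Point.some x₁ y₁ h₁) := by
  intro x y h e
  have cx := mult_cx_x h₁ hb hx m hm x y h e
  have l0 : k ≤ k * m ^ 2 := Nat.le_mul_of_pos_right _ (pow_pos hm 2)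
  have l1 : 3 * k * m ^ 2 = 3 * (k * m ^ 2) := by ring
  have l2 : 100 * k * m ^ 2 = 100 * (k * m ^ 2) := by ring
  refine ⟨cx.mono (by omega), ?_⟩
  by_cases h2 : 2 * y₁ + a₃ = 0
  · have h20 : (2 : ℕ) • Point.some x₁ y₁ h₁ = 0 := by
      rw [two_nsmul, add_neg_pt h₁ h₁ (by linear_combination h2)]
    rcases Nat.even_or_odd' m with ⟨j, hj | hj⟩
    · rw [hj, mul_nsmul, h20, nsmul_zero] at e
      exact absurd e.symm (Point.some_ne_zero _)
    · rw [hj, add_nsmul, mul_nsmul, h20, nsmul_zero, zero_add, one_nsmul] at e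
      simp only [Point.some.injEq] at e
      obtain ⟨rfl, rfl⟩ := e
      exact hy.mono (by omega)
  · by_cases hxx : x = x₁
    · subst hxx
      rcases same_x h h₁ with hyy | hyy
      · subst hyy
        exact hy.mono (by omega)
      · rw [hyy]
        exact (hy.neg.sub h3).mono (by omega)
    · obtain ⟨u, w, g, f1, f2, -⟩ := add_gen h h₁ hxx
      have e' : (m + 1) • Point.some x₁ y₁ h₁ = Point.some u w g := by
        rw [succ_nsmul, e, f1]
      have cu := mult_cx_x h₁ hb hx (m + 1) (by omega) u w g e'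
      have cu' : Cx (12 * (k * m ^ 2)) u := by
        refine cu.mono ?_
        have : 3 * k * (m + 1) ^ 2 ≤ 12 * (k * m ^ 2) := by
          have : (m + 1) ^ 2 ≤ 4 * m ^ 2 := by nlinarith
          calc 3 * k * (m + 1) ^ 2 ≤ 3 * k * (4 * m ^ 2) := Nat.mul_le_mul_left _ this
            _ = _ := by ring
        omega
      have q1 := eqn h₁
      have q2 := eqn h
      have hy' : y = (x ^ 3 - x₁ ^ 3 - (u + x + x₁) * (x - x₁) ^ 2) / (2 * y₁ + a₃) + y₁ := by
        have : (2 * y₁ + a₃) * (y - y₁) = x ^ 3 - x₁ ^ 3 - (u + x + x₁) * (x - x₁) ^ 2 := by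
          linear_combination q2 - q1 + f2
        rw [← this, mul_div_assoc, mul_comm, div_mul_cancel₀ _ h2]
        ring
      rw [hy']
      exact ((((((cx.pow 3).sub (hx.pow 3)).sub
        (((cu'.add cx).add hx).mul ((cx.sub hx).pow 2))).div
        (((Cx.ofNat 2).mul hy).add h3)).add hy)).mono (by omega)

end cxpt

end Pool.Agent.L0h91.DG
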