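import Mathlib

/-!
# Rational self-maps of projective space, their iterates, degrees and dynamical degrees
-/

set_option autoImplicit false

namespace Pool.Agent.L0h91.DG

open MvPolynomial Filter

/-- A rational self-map `[f₀ : … : f_N]` of projective `N`-space over `K`: forms of one common
degree in `N + 1` variables, without nonconstant common factor. -/
structure RatMap (K : Type*) [Field K] (N : ℕ) where
  /-- the degree of the map -/
  deg : ℕ
  /-- the coordinate forms -/
  coord : Fin (N + 1) → MvPolynomial (Fin (N + 1)) K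
  /-- the coordinate forms are homogeneous of degree `deg` -/
  homog : ∀ i, (coord i).IsHomogeneous deg
  /-- the coordinate forms have no nonconstant common factor -/
  no_common : ∀ h : MvPolynomial (Fin (N + 1)) K, (∀ i, h ∣ coord i) → IsUnit h

namespace RatMap

variable {K : Type*} [Field K] {N : ℕ}

/-- The map is dominant: its coordinate forms satisfy no nontrivial polynomial relation. -/
def Dominant (f : RatMap K N) : Prop := AlgebraicIndependent K f.coord

/-- The `n`-fold composition of the coordinate forms with themselves, before common factors are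
removed: `f^(n+1)_i = f_i (f^n_0, …, f^n_N)`. -/
noncomputable def naive (f : RatMap K N) : ℕ → Fin (N + 1) → MvPolynomial (Fin (N + 1)) K
  | 0 => X
  | n + 1 => fun i => bind₁ (f.naive n) (f.coord i)

/-- `g` is the `n`-th iterate of `f`: its coordinate forms are those of the `n`-fold composition
with a common factor removed. -/
def IsIterate (f : RatMap K N) (n : ℕ) (g : RatMap K N) : Prop :=
  ∃ h : MvPolynomial (Fin (N + 1)) K, h ≠ 0 ∧ ∀ i, f.naive n i = h * g.coord i

/-- The degree of the `n`-th iterate of `f`. -/
noncomputable def degIter (f : RatMap K N) (n : ℕ) : ℕ :=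
  sInf {e | ∃ g : RatMap K N, f.IsIterate n g ∧ g.deg = e}

/-- The dynamical degree of `f` is `δ`. -/
def HasDynDeg (f : RatMap K N) (δ : ℝ) : Prop :=
  Tendsto (fun n : ℕ => (f.degIter n : ℝ) ^ (1 / (n : ℝ))) atTop (nhds δ)

end RatMap

/-- `F ≍ G` -/
def Asymp (F G : ℕ → ℝ) : Prop :=
  ∃ (c₁ c₂ : ℝ) (c₃ : ℕ), 0 < c₁ ∧ 0 < c₂ ∧ ∀ n ≥ c₃, c₁ * F n ≤ G n ∧ G n ≤ c₂ * F n

end Pool.Agent.L0h91.DG
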