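import Mathlib
import Pool.Agent.L0h91.DG.Curve

/-!
# The elementary maps on triples of points

A triple `(P₁, P₂, P₃)` of points of `y² + a₃ y = x³ + a₆` is represented by the vector
`(x₁ (y₂ - y₁), x₂ (y₂ - y₁), x₃ (y₂ - y₁), x₁ (y₃ - y₁))`.
-/

set_option autoImplicit false
set_option linter.unusedSectionVars false
set_option linter.unusedSimpArgs false

namespace Pool.Agent.L0h91.DG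

open WeierstrassCurve.Affine

/-- the vector of a triple of points -/
def Wv {R : Type*} [CommRing R] (x₁ y₁ x₂ y₂ x₃ y₃ : R) : Fin 4 → R :=
  ![x₁ * (y₂ - y₁), x₂ * (y₂ - y₁), x₃ * (y₂ - y₁), x₁ * (y₃ - y₁)]

section vals

variable {R : Type*} [CommRing R] (x₁ y₁ x₂ y₂ x₃ y₃ : R)

theorem Wv0 : Wv x₁ y₁ x₂ y₂ x₃ y₃ 0 = x₁ * (y₂ - y₁) := rfl
theorem Wv1 : Wv x₁ y₁ x₂ y₂ x₃ y₃ 1 = x₂ * (y₂ - y₁) := rfl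
theorem Wv2 : Wv x₁ y₁ x₂ y₂ x₃ y₃ 2 = x₃ * (y₂ - y₁) := rfl
theorem Wv3 : Wv x₁ y₁ x₂ y₂ x₃ y₃ 3 = x₁ * (y₃ - y₁) := rfl

end vals

section polys

variable {R : Type*} [CommRing R]

def pc (v : Fin 4 → R) : R := v 1 ^ 3 - v 0 ^ 3
def pe (v : Fin 4 → R) : R := v 2 ^ 3 - v 0 ^ 3
def pM (v : Fin 4 → R) : R := pe v * v 0 - pc v * v 3
def pT (v : Fin 4 → R) : R := v 3 * (v 3 - v 0)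
def pU (v : Fin 4 → R) : R := pM v * v 0 - (v 0 + v 1) * (v 1 - v 0) ^ 2 * pT v
def pV (v : Fin 4 → R) : R :=
  pM v * (v 3 - v 0) - (v 1 + v 2) * (v 2 - v 1) ^ 2 * v 3 * v 0
def pnum (v : Fin 4 → R) : R :=
  (v 3 - v 0) * ((pV v - v 1 * v 3 * (v 2 - v 1) ^ 2 * v 0) * pM v +
    pc v * v 3 ^ 2 * (v 2 - v 1) ^ 3 * v 0)
def pden (v : Fin 4 → R) : R :=
  (pU v - pT v * (v 1 - v 0) ^ 2 * v 0) * pM v * v 0 +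
    (pc v * pT v - pM v * v 0) * pT v * (v 1 - v 0) ^ 3
def pl (v : Fin 4 → R) : R := v 3 * (v 2 - v 1) ^ 3 * pM v * v 0

/-- the map induced by `(P₁, P₂, P₃) ↦ (P₁, P₂, P₂ + P₃)`, of degree ten -/
def mapB (v : Fin 4 → R) : Fin 4 → R :=
  ![v 0 * pl v, v 1 * pl v, pV v * (v 2 - v 1) * pM v, - pnum v]

/-- the map induced by `(P₁, P₂, P₃) ↦ (P₁, P₁ + P₂, P₃)`, of degree fifteen -/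
def mapA (v : Fin 4 → R) : Fin 4 → R :=
  ![- pden v * (pT v * (v 1 - v 0) ^ 2 * v 0), - pden v * pU v,
    - pden v * (v 2 * pT v * (v 1 - v 0) ^ 2),
    v 3 * pT v ^ 2 * pM v * (v 1 - v 0) ^ 5 * v 0]

/-- the map induced by `(P₁, P₂, P₃) ↦ (-P₁, P₂, P₃)`, of degree five -/
def mapC (v : Fin 4 → R) : Fin 4 → R :=
  ![v 0 * (pc v * v 3), v 1 * (pc v * v 3), v 2 * (pc v * v 3), pe v * v 0 ^ 2]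

/-- the map induced by `(P₁, P₂, P₃) ↦ (P₁, -P₂, P₃)`, of degree five -/
def mapD (v : Fin 4 → R) : Fin 4 → R :=
  ![v 0 * ((v 3 - v 0) * pc v), v 1 * ((v 3 - v 0) * pc v), v 2 * ((v 3 - v 0) * pc v),
    - v 0 * pM v]

end polys

section scaling

variable {R : Type*} [CommRing R] (μ : R) (v : Fin 4 → R)

theorem pc_smul : pc (μ • v) = μ ^ 3 * pc v := by
  simp only [pc, Pi.smul_apply, smul_eq_mul]; ring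

theorem pe_smul : pe (μ • v) = μ ^ 3 * pe v := by
  simp only [pe, Pi.smul_apply, smul_eq_mul]; ring

theorem pM_smul : pM (μ • v) = μ ^ 4 * pM v := by
  simp only [pM, pc_smul, pe_smul]
  simp only [Pi.smul_apply, smul_eq_mul]; ring

theorem pT_smul : pT (μ • v) = μ ^ 2 * pT v := by
  simp only [pT, Pi.smul_apply, smul_eq_mul]; ring

theorem pU_smul : pU (μ • v) = μ ^ 5 * pU v := by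
  simp only [pU, pM_smul, pT_smul]
  simp only [Pi.smul_apply, smul_eq_mul]; ring

theorem pV_smul : pV (μ • v) = μ ^ 5 * pV v := by
  simp only [pV, pM_smul]
  simp only [Pi.smul_apply, smul_eq_mul]; ring

theorem pnum_smul : pnum (μ • v) = μ ^ 10 * pnum v := by
  simp only [pnum, pM_smul, pV_smul, pc_smul]
  simp only [Pi.smul_apply, smul_eq_mul]; ring

theorem pden_smul : pden (μ • v) = μ ^ 10 * pden v := by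
  simp only [pden, pM_smul, pU_smul, pc_smul, pT_smul]
  simp only [Pi.smul_apply, smul_eq_mul]; ring

theorem pl_smul : pl (μ • v) = μ ^ 9 * pl v := by
  simp only [pl, pM_smul]
  simp only [Pi.smul_apply, smul_eq_mul]; ring

theorem mapB_smul : mapB (μ • v) = μ ^ 10 • mapB v := by
  funext i
  fin_cases i <;>
  · simp only [mapB, pM_smul, pV_smul, pnum_smul, pl_smul, Pi.smul_apply, smul_eq_mul,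
      Matrix.cons_val, Fin.zero_eta, Fin.mk_one, Fin.reduceFinMk]
    ring

theorem mapA_smul : mapA (μ • v) = μ ^ 15 • mapA v := by
  funext i
  fin_cases i <;>
  · simp only [mapA, pM_smul, pU_smul, pT_smul, pden_smul, Pi.smul_apply, smul_eq_mul,
      Matrix.cons_val, Fin.zero_eta, Fin.mk_one, Fin.reduceFinMk]
    ring

theorem mapC_smul : mapC (μ • v) = μ ^ 5 • mapC v := by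
  funext i
  fin_cases i <;>
  · simp only [mapC, pc_smul, pe_smul, Pi.smul_apply, smul_eq_mul,
      Matrix.cons_val, Fin.zero_eta, Fin.mk_one, Fin.reduceFinMk]
    ring

theorem mapD_smul : mapD (μ • v) = μ ^ 5 • mapD v := by
  funext i
  fin_cases i <;>
  · simp only [mapD, pc_smul, pM_smul, Pi.smul_apply, smul_eq_mul,
      Matrix.cons_val, Fin.zero_eta, Fin.mk_one, Fin.reduceFinMk]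
    ring

end scaling

section naturality

variable {R S : Type*} [CommRing R] [CommRing S] (φ : R →+* S) (v : Fin 4 → R)

theorem map_pc : φ (pc v) = pc (fun i => φ (v i)) := by
  simp only [pc, map_sub, map_pow]

theorem map_pe : φ (pe v) = pe (fun i => φ (v i)) := by
  simp only [pe, map_sub, map_pow]

theorem map_pM : φ (pM v) = pM (fun i => φ (v i)) := by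
  simp only [pM, map_sub, map_mul, map_pc, map_pe]

theorem map_pT : φ (pT v) = pT (fun i => φ (v i)) := by
  simp only [pT, map_sub, map_mul]

theorem map_pU : φ (pU v) = pU (fun i => φ (v i)) := by
  simp only [pU, map_sub, map_mul, map_add, map_pow, map_pM, map_pT]

theorem map_pV : φ (pV v) = pV (fun i => φ (v i)) := by
  simp only [pV, map_sub, map_mul, map_add, map_pow, map_pM]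

theorem map_pnum : φ (pnum v) = pnum (fun i => φ (v i)) := by
  simp only [pnum, map_sub, map_mul, map_add, map_pow, map_pM, map_pV, map_pc]

theorem map_pden : φ (pden v) = pden (fun i => φ (v i)) := by
  simp only [pden, map_sub, map_mul, map_add, map_pow, map_pM, map_pU, map_pT, map_pc]

theorem map_pl : φ (pl v) = pl (fun i => φ (v i)) := by
  simp only [pl, map_sub, map_mul, map_pow, map_pM]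

theorem map_mapB (i : Fin 4) : φ (mapB v i) = mapB (fun i => φ (v i)) i := by
  fin_cases i <;>
  simp only [mapB, map_mul, map_sub, map_neg, map_pM, map_pV, map_pnum, map_pl,
      Matrix.cons_val, Fin.zero_eta, Fin.mk_one, Fin.reduceFinMk]

theorem map_mapA (i : Fin 4) : φ (mapA v i) = mapA (fun i => φ (v i)) i := by
  fin_cases i <;>
  simp only [mapA, map_mul, map_sub, map_neg, map_pow, map_pM, map_pU, map_pT, map_pden,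
      Matrix.cons_val, Fin.zero_eta, Fin.mk_one, Fin.reduceFinMk]

theorem map_mapC (i : Fin 4) : φ (mapC v i) = mapC (fun i => φ (v i)) i := by
  fin_cases i <;>
  simp only [mapC, map_mul, map_pow, map_pc, map_pe,
      Matrix.cons_val, Fin.zero_eta, Fin.mk_one, Fin.reduceFinMk]

theorem map_mapD (i : Fin 4) : φ (mapD v i) = mapD (fun i => φ (v i)) i := by
  fin_cases i <;>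
  simp only [mapD, map_mul, map_sub, map_neg, map_pM, map_pc,
      Matrix.cons_val, Fin.zero_eta, Fin.mk_one, Fin.reduceFinMk]

end naturality

section identities

variable {L : Type*} [Field L] {a₃ a₆ x₁ y₁ x₂ y₂ x₃ y₃ : L}

theorem W_c (e1 : y₁ ^ 2 + a₃ * y₁ = x₁ ^ 3 + a₆) (e2 : y₂ ^ 2 + a₃ * y₂ = x₂ ^ 3 + a₆) :
    pc (Wv x₁ y₁ x₂ y₂ x₃ y₃) = (y₂ - y₁) ^ 4 * (y₁ + y₂ + a₃) := by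
  simp only [pc, Wv0, Wv1]
  linear_combination (y₂ - y₁) ^ 3 * (e1 - e2)

theorem W_e (e1 : y₁ ^ 2 + a₃ * y₁ = x₁ ^ 3 + a₆) (e3 : y₃ ^ 2 + a₃ * y₃ = x₃ ^ 3 + a₆) :
    pe (Wv x₁ y₁ x₂ y₂ x₃ y₃) = (y₂ - y₁) ^ 3 * (y₃ - y₁) * (y₁ + y₃ + a₃) := by
  simp only [pe, Wv0, Wv2]
  linear_combination (y₂ - y₁) ^ 3 * (e1 - e3)

theorem W_M (e1 : y₁ ^ 2 + a₃ * y₁ = x₁ ^ 3 + a₆) (e2 : y₂ ^ 2 + a₃ * y₂ = x₂ ^ 3 + a₆)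
    (e3 : y₃ ^ 2 + a₃ * y₃ = x₃ ^ 3 + a₆) :
    pM (Wv x₁ y₁ x₂ y₂ x₃ y₃) = x₁ * (y₂ - y₁) ^ 4 * (y₃ - y₁) * (y₃ - y₂) := by
  rw [pM, W_c e1 e2, W_e e1 e3]
  simp only [Wv0, Wv1, Wv2, Wv3]
  obtain ⟨d, rfl⟩ : ∃ d, y₂ = y₁ + d := ⟨y₂ - y₁, by ring⟩
  obtain ⟨u, rfl⟩ : ∃ u, y₃ = y₁ + u := ⟨y₃ - y₁, by ring⟩
  obtain ⟨p, rfl⟩ : ∃ p, x₂ = x₁ + p := ⟨x₂ - x₁, by ring⟩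
  obtain ⟨q, rfl⟩ : ∃ q, x₃ = x₁ + p + q := ⟨x₃ - (x₁ + p), by ring⟩
  ring

theorem W_T : pT (Wv x₁ y₁ x₂ y₂ x₃ y₃) = x₁ ^ 2 * (y₃ - y₁) * (y₃ - y₂) := by
  simp only [pT, Wv0, Wv3]
  ring

theorem W_U {x₄ : L} (e1 : y₁ ^ 2 + a₃ * y₁ = x₁ ^ 3 + a₆)
    (e2 : y₂ ^ 2 + a₃ * y₂ = x₂ ^ 3 + a₆) (e3 : y₃ ^ 2 + a₃ * y₃ = x₃ ^ 3 + a₆)
    (h4 : x₄ * (x₂ - x₁) ^ 2 = (y₂ - y₁) ^ 2 - (x₁ + x₂) * (x₂ - x₁) ^ 2) :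
    pU (Wv x₁ y₁ x₂ y₂ x₃ y₃) =
      x₁ ^ 2 * (y₃ - y₁) * (y₃ - y₂) * (y₂ - y₁) ^ 3 * (x₂ - x₁) ^ 2 * x₄ := by
  rw [pU, W_M e1 e2 e3, W_T]
  simp only [Wv0, Wv1, Wv2, Wv3]
  obtain ⟨d, rfl⟩ : ∃ d, y₂ = y₁ + d := ⟨y₂ - y₁, by ring⟩
  obtain ⟨u, rfl⟩ : ∃ u, y₃ = y₁ + u := ⟨y₃ - y₁, by ring⟩
  obtain ⟨p, rfl⟩ : ∃ p, x₂ = x₁ + p := ⟨x₂ - x₁, by ring⟩
  obtain ⟨q, rfl⟩ : ∃ q, x₃ = x₁ + p + q := ⟨x₃ - (x₁ + p), by ring⟩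
  linear_combination (-(x₁ ^ 2 * u * (u - d) * d ^ 3)) * h4

theorem W_V {x₅ : L} (e1 : y₁ ^ 2 + a₃ * y₁ = x₁ ^ 3 + a₆)
    (e2 : y₂ ^ 2 + a₃ * y₂ = x₂ ^ 3 + a₆) (e3 : y₃ ^ 2 + a₃ * y₃ = x₃ ^ 3 + a₆)
    (h5 : x₅ * (x₃ - x₂) ^ 2 = (y₃ - y₂) ^ 2 - (x₂ + x₃) * (x₃ - x₂) ^ 2) :
    pV (Wv x₁ y₁ x₂ y₂ x₃ y₃) =
      x₁ ^ 2 * (y₂ - y₁) ^ 4 * (y₃ - y₁) * (x₃ - x₂) ^ 2 * x₅ := by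
  rw [pV, W_M e1 e2 e3]
  simp only [Wv0, Wv1, Wv2, Wv3]
  obtain ⟨d, rfl⟩ : ∃ d, y₂ = y₁ + d := ⟨y₂ - y₁, by ring⟩
  obtain ⟨u, rfl⟩ : ∃ u, y₃ = y₁ + u := ⟨y₃ - y₁, by ring⟩
  obtain ⟨p, rfl⟩ : ∃ p, x₂ = x₁ + p := ⟨x₂ - x₁, by ring⟩
  obtain ⟨q, rfl⟩ : ∃ q, x₃ = x₁ + p + q := ⟨x₃ - (x₁ + p), by ring⟩
  linear_combination (-(x₁ ^ 2 * d ^ 4 * u)) * h5

theorem W_l (e1 : y₁ ^ 2 + a₃ * y₁ = x₁ ^ 3 + a₆)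
    (e2 : y₂ ^ 2 + a₃ * y₂ = x₂ ^ 3 + a₆) (e3 : y₃ ^ 2 + a₃ * y₃ = x₃ ^ 3 + a₆) :
    pl (Wv x₁ y₁ x₂ y₂ x₃ y₃) =
      x₁ ^ 3 * (y₂ - y₁) ^ 8 * (y₃ - y₁) ^ 2 * (y₃ - y₂) * (x₃ - x₂) ^ 3 := by
  rw [pl, W_M e1 e2 e3]
  simp only [Wv0, Wv1, Wv2, Wv3]
  obtain ⟨d, rfl⟩ : ∃ d, y₂ = y₁ + d := ⟨y₂ - y₁, by ring⟩
  obtain ⟨u, rfl⟩ : ∃ u, y₃ = y₁ + u := ⟨y₃ - y₁, by ring⟩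
  obtain ⟨p, rfl⟩ : ∃ p, x₂ = x₁ + p := ⟨x₂ - x₁, by ring⟩
  obtain ⟨q, rfl⟩ : ∃ q, x₃ = x₁ + p + q := ⟨x₃ - (x₁ + p), by ring⟩
  ring

theorem W_num {x₅ y₅ : L} (e1 : y₁ ^ 2 + a₃ * y₁ = x₁ ^ 3 + a₆)
    (e2 : y₂ ^ 2 + a₃ * y₂ = x₂ ^ 3 + a₆) (e3 : y₃ ^ 2 + a₃ * y₃ = x₃ ^ 3 + a₆)
    (h5 : x₅ * (x₃ - x₂) ^ 2 = (y₃ - y₂) ^ 2 - (x₂ + x₃) * (x₃ - x₂) ^ 2)
    (k5 : (y₅ + y₂ + a₃) * (x₃ - x₂) = -(y₃ - y₂) * (x₅ - x₂)) :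
    pnum (Wv x₁ y₁ x₂ y₂ x₃ y₃) =
      -(x₁ ^ 4 * (y₂ - y₁) ^ 8 * (y₃ - y₁) ^ 2 * (y₃ - y₂) * (x₃ - x₂) ^ 3 * (y₅ - y₁)) := by
  rw [pnum, W_M e1 e2 e3, W_V e1 e2 e3 h5, W_c e1 e2]
  simp only [Wv0, Wv1, Wv2, Wv3]
  obtain ⟨d, rfl⟩ : ∃ d, y₂ = y₁ + d := ⟨y₂ - y₁, by ring⟩
  obtain ⟨u, rfl⟩ : ∃ u, y₃ = y₁ + u := ⟨y₃ - y₁, by ring⟩
  obtain ⟨p, rfl⟩ : ∃ p, x₂ = x₁ + p := ⟨x₂ - x₁, by ring⟩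
  obtain ⟨q, rfl⟩ : ∃ q, x₃ = x₁ + p + q := ⟨x₃ - (x₁ + p), by ring⟩
  linear_combination (x₁ ^ 4 * d ^ 8 * u ^ 2 * (u - d) * q ^ 2) * k5

theorem W_den {x₄ y₄ : L} (e1 : y₁ ^ 2 + a₃ * y₁ = x₁ ^ 3 + a₆)
    (e2 : y₂ ^ 2 + a₃ * y₂ = x₂ ^ 3 + a₆) (e3 : y₃ ^ 2 + a₃ * y₃ = x₃ ^ 3 + a₆)
    (h4 : x₄ * (x₂ - x₁) ^ 2 = (y₂ - y₁) ^ 2 - (x₁ + x₂) * (x₂ - x₁) ^ 2)
    (k4 : (y₄ + y₁ + a₃) * (x₂ - x₁) = -(y₂ - y₁) * (x₄ - x₁)) :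
    pden (Wv x₁ y₁ x₂ y₂ x₃ y₃) =
      -(x₁ ^ 4 * (y₃ - y₁) ^ 2 * (y₃ - y₂) ^ 2 * (y₂ - y₁) ^ 7 * (x₂ - x₁) ^ 3 *
        (y₄ - y₁)) := by
  rw [pden, W_M e1 e2 e3, W_U e1 e2 e3 h4, W_c e1 e2, W_T]
  simp only [Wv0, Wv1, Wv2, Wv3]
  obtain ⟨d, rfl⟩ : ∃ d, y₂ = y₁ + d := ⟨y₂ - y₁, by ring⟩
  obtain ⟨u, rfl⟩ : ∃ u, y₃ = y₁ + u := ⟨y₃ - y₁, by ring⟩
  obtain ⟨p, rfl⟩ : ∃ p, x₂ = x₁ + p := ⟨x₂ - x₁, by ring⟩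
  obtain ⟨q, rfl⟩ : ∃ q, x₃ = x₁ + p + q := ⟨x₃ - (x₁ + p), by ring⟩
  linear_combination (x₁ ^ 4 * u ^ 2 * (u - d) ^ 2 * d ^ 7 * p ^ 2) * k4

theorem W_mapB {x₅ y₅ : L} (e1 : y₁ ^ 2 + a₃ * y₁ = x₁ ^ 3 + a₆)
    (e2 : y₂ ^ 2 + a₃ * y₂ = x₂ ^ 3 + a₆) (e3 : y₃ ^ 2 + a₃ * y₃ = x₃ ^ 3 + a₆)
    (h5 : x₅ * (x₃ - x₂) ^ 2 = (y₃ - y₂) ^ 2 - (x₂ + x₃) * (x₃ - x₂) ^ 2)
    (k5 : (y₅ + y₂ + a₃) * (x₃ - x₂) = -(y₃ - y₂) * (x₅ - x₂)) :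
    mapB (Wv x₁ y₁ x₂ y₂ x₃ y₃) =
      pl (Wv x₁ y₁ x₂ y₂ x₃ y₃) • Wv x₁ y₁ x₂ y₂ x₅ y₅ := by
  funext i
  fin_cases i
  · change Wv x₁ y₁ x₂ y₂ x₃ y₃ 0 * pl (Wv x₁ y₁ x₂ y₂ x₃ y₃) =
      pl (Wv x₁ y₁ x₂ y₂ x₃ y₃) * Wv x₁ y₁ x₂ y₂ x₅ y₅ 0
    rw [Wv0, Wv0]; ring
  · change Wv x₁ y₁ x₂ y₂ x₃ y₃ 1 * pl (Wv x₁ y₁ x₂ y₂ x₃ y₃) =
      pl (Wv x₁ y₁ x₂ y₂ x₃ y₃) * Wv x₁ y₁ x₂ y₂ x₅ y₅ 1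
    rw [Wv1, Wv1]; ring
  · change pV (Wv x₁ y₁ x₂ y₂ x₃ y₃) *
      (Wv x₁ y₁ x₂ y₂ x₃ y₃ 2 - Wv x₁ y₁ x₂ y₂ x₃ y₃ 1) * pM (Wv x₁ y₁ x₂ y₂ x₃ y₃) =
      pl (Wv x₁ y₁ x₂ y₂ x₃ y₃) * Wv x₁ y₁ x₂ y₂ x₅ y₅ 2
    rw [W_l e1 e2 e3, W_V e1 e2 e3 h5, W_M e1 e2 e3]
    simp only [Wv0, Wv1, Wv2, Wv3]
    obtain ⟨d, rfl⟩ : ∃ d, y₂ = y₁ + d := ⟨y₂ - y₁, by ring⟩
    obtain ⟨u, rfl⟩ : ∃ u, y₃ = y₁ + u := ⟨y₃ - y₁, by ring⟩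
    obtain ⟨p, rfl⟩ : ∃ p, x₂ = x₁ + p := ⟨x₂ - x₁, by ring⟩
    obtain ⟨q, rfl⟩ : ∃ q, x₃ = x₁ + p + q := ⟨x₃ - (x₁ + p), by ring⟩
    ring
  · change - pnum (Wv x₁ y₁ x₂ y₂ x₃ y₃) =
      pl (Wv x₁ y₁ x₂ y₂ x₃ y₃) * Wv x₁ y₁ x₂ y₂ x₅ y₅ 3
    rw [W_l e1 e2 e3, W_num e1 e2 e3 h5 k5]
    simp only [Wv0, Wv1, Wv2, Wv3]
    obtain ⟨d, rfl⟩ : ∃ d, y₂ = y₁ + d := ⟨y₂ - y₁, by ring⟩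
    obtain ⟨u, rfl⟩ : ∃ u, y₃ = y₁ + u := ⟨y₃ - y₁, by ring⟩
    obtain ⟨p, rfl⟩ : ∃ p, x₂ = x₁ + p := ⟨x₂ - x₁, by ring⟩
    obtain ⟨q, rfl⟩ : ∃ q, x₃ = x₁ + p + q := ⟨x₃ - (x₁ + p), by ring⟩
    ring

theorem W_mapA {x₄ y₄ : L} (e1 : y₁ ^ 2 + a₃ * y₁ = x₁ ^ 3 + a₆)
    (e2 : y₂ ^ 2 + a₃ * y₂ = x₂ ^ 3 + a₆) (e3 : y₃ ^ 2 + a₃ * y₃ = x₃ ^ 3 + a₆)
    (h4 : x₄ * (x₂ - x₁) ^ 2 = (y₂ - y₁) ^ 2 - (x₁ + x₂) * (x₂ - x₁) ^ 2)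
    (k4 : (y₄ + y₁ + a₃) * (x₂ - x₁) = -(y₂ - y₁) * (x₄ - x₁)) :
    mapA (Wv x₁ y₁ x₂ y₂ x₃ y₃) =
      (pT (Wv x₁ y₁ x₂ y₂ x₃ y₃) ^ 2 * pM (Wv x₁ y₁ x₂ y₂ x₃ y₃) *
        (Wv x₁ y₁ x₂ y₂ x₃ y₃ 1 - Wv x₁ y₁ x₂ y₂ x₃ y₃ 0) ^ 5 *
        Wv x₁ y₁ x₂ y₂ x₃ y₃ 0) • Wv x₁ y₁ x₄ y₄ x₃ y₃ := by
  funext i
  fin_cases i
  · change - pden (Wv x₁ y₁ x₂ y₂ x₃ y₃) * (pT (Wv x₁ y₁ x₂ y₂ x₃ y₃) *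
        (Wv x₁ y₁ x₂ y₂ x₃ y₃ 1 - Wv x₁ y₁ x₂ y₂ x₃ y₃ 0) ^ 2 *
        Wv x₁ y₁ x₂ y₂ x₃ y₃ 0) = _ * Wv x₁ y₁ x₄ y₄ x₃ y₃ 0
    rw [W_den e1 e2 e3 h4 k4, W_M e1 e2 e3, W_T]
    simp only [Wv0, Wv1, Wv2, Wv3]
    obtain ⟨d, rfl⟩ : ∃ d, y₂ = y₁ + d := ⟨y₂ - y₁, by ring⟩
    obtain ⟨u, rfl⟩ : ∃ u, y₃ = y₁ + u := ⟨y₃ - y₁, by ring⟩
    obtain ⟨p, rfl⟩ : ∃ p, x₂ = x₁ + p := ⟨x₂ - x₁, by ring⟩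
    obtain ⟨q, rfl⟩ : ∃ q, x₃ = x₁ + p + q := ⟨x₃ - (x₁ + p), by ring⟩
    ring
  · change - pden (Wv x₁ y₁ x₂ y₂ x₃ y₃) * pU (Wv x₁ y₁ x₂ y₂ x₃ y₃) =
      _ * Wv x₁ y₁ x₄ y₄ x₃ y₃ 1
    rw [W_den e1 e2 e3 h4 k4, W_M e1 e2 e3, W_T, W_U e1 e2 e3 h4]
    simp only [Wv0, Wv1, Wv2, Wv3]
    obtain ⟨d, rfl⟩ : ∃ d, y₂ = y₁ + d := ⟨y₂ - y₁, by ring⟩
    obtain ⟨u, rfl⟩ : ∃ u, y₃ = y₁ + u := ⟨y₃ - y₁, by ring⟩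
    obtain ⟨p, rfl⟩ : ∃ p, x₂ = x₁ + p := ⟨x₂ - x₁, by ring⟩
    obtain ⟨q, rfl⟩ : ∃ q, x₃ = x₁ + p + q := ⟨x₃ - (x₁ + p), by ring⟩
    ring
  · change - pden (Wv x₁ y₁ x₂ y₂ x₃ y₃) * (Wv x₁ y₁ x₂ y₂ x₃ y₃ 2 *
        pT (Wv x₁ y₁ x₂ y₂ x₃ y₃) *
        (Wv x₁ y₁ x₂ y₂ x₃ y₃ 1 - Wv x₁ y₁ x₂ y₂ x₃ y₃ 0) ^ 2) =
      _ * Wv x₁ y₁ x₄ y₄ x₃ y₃ 2
    rw [W_den e1 e2 e3 h4 k4, W_M e1 e2 e3, W_T]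
    simp only [Wv0, Wv1, Wv2, Wv3]
    obtain ⟨d, rfl⟩ : ∃ d, y₂ = y₁ + d := ⟨y₂ - y₁, by ring⟩
    obtain ⟨u, rfl⟩ : ∃ u, y₃ = y₁ + u := ⟨y₃ - y₁, by ring⟩
    obtain ⟨p, rfl⟩ : ∃ p, x₂ = x₁ + p := ⟨x₂ - x₁, by ring⟩
    obtain ⟨q, rfl⟩ : ∃ q, x₃ = x₁ + p + q := ⟨x₃ - (x₁ + p), by ring⟩
    ring
  · change Wv x₁ y₁ x₂ y₂ x₃ y₃ 3 * pT (Wv x₁ y₁ x₂ y₂ x₃ y₃) ^ 2 *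
        pM (Wv x₁ y₁ x₂ y₂ x₃ y₃) *
        (Wv x₁ y₁ x₂ y₂ x₃ y₃ 1 - Wv x₁ y₁ x₂ y₂ x₃ y₃ 0) ^ 5 *
        Wv x₁ y₁ x₂ y₂ x₃ y₃ 0 = _ * Wv x₁ y₁ x₄ y₄ x₃ y₃ 3
    simp only [Wv3]
    ring

theorem W_mapC (e1 : y₁ ^ 2 + a₃ * y₁ = x₁ ^ 3 + a₆)
    (e2 : y₂ ^ 2 + a₃ * y₂ = x₂ ^ 3 + a₆) (e3 : y₃ ^ 2 + a₃ * y₃ = x₃ ^ 3 + a₆) :
    mapC (Wv x₁ y₁ x₂ y₂ x₃ y₃) =
      ((y₂ - y₁) ^ 5 * Wv x₁ y₁ x₂ y₂ x₃ y₃ 3) • Wv x₁ (-y₁ - a₃) x₂ y₂ x₃ y₃ := by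
  funext i
  fin_cases i
  · change Wv x₁ y₁ x₂ y₂ x₃ y₃ 0 * (pc (Wv x₁ y₁ x₂ y₂ x₃ y₃) *
      Wv x₁ y₁ x₂ y₂ x₃ y₃ 3) = _ * Wv x₁ (-y₁ - a₃) x₂ y₂ x₃ y₃ 0
    rw [W_c e1 e2]
    simp only [Wv0, Wv1, Wv2, Wv3]
    obtain ⟨d, rfl⟩ : ∃ d, y₂ = y₁ + d := ⟨y₂ - y₁, by ring⟩
    obtain ⟨u, rfl⟩ : ∃ u, y₃ = y₁ + u := ⟨y₃ - y₁, by ring⟩
    obtain ⟨p, rfl⟩ : ∃ p, x₂ = x₁ + p := ⟨x₂ - x₁, by ring⟩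
    obtain ⟨q, rfl⟩ : ∃ q, x₃ = x₁ + p + q := ⟨x₃ - (x₁ + p), by ring⟩
    ring
  · change Wv x₁ y₁ x₂ y₂ x₃ y₃ 1 * (pc (Wv x₁ y₁ x₂ y₂ x₃ y₃) *
      Wv x₁ y₁ x₂ y₂ x₃ y₃ 3) = _ * Wv x₁ (-y₁ - a₃) x₂ y₂ x₃ y₃ 1
    rw [W_c e1 e2]
    simp only [Wv0, Wv1, Wv2, Wv3]
    obtain ⟨d, rfl⟩ : ∃ d, y₂ = y₁ + d := ⟨y₂ - y₁, by ring⟩
    obtain ⟨u, rfl⟩ : ∃ u, y₃ = y₁ + u := ⟨y₃ - y₁, by ring⟩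
    obtain ⟨p, rfl⟩ : ∃ p, x₂ = x₁ + p := ⟨x₂ - x₁, by ring⟩
    obtain ⟨q, rfl⟩ : ∃ q, x₃ = x₁ + p + q := ⟨x₃ - (x₁ + p), by ring⟩
    ring
  · change Wv x₁ y₁ x₂ y₂ x₃ y₃ 2 * (pc (Wv x₁ y₁ x₂ y₂ x₃ y₃) *
      Wv x₁ y₁ x₂ y₂ x₃ y₃ 3) = _ * Wv x₁ (-y₁ - a₃) x₂ y₂ x₃ y₃ 2
    rw [W_c e1 e2]
    simp only [Wv0, Wv1, Wv2, Wv3]
    obtain ⟨d, rfl⟩ : ∃ d, y₂ = y₁ + d := ⟨y₂ - y₁, by ring⟩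
    obtain ⟨u, rfl⟩ : ∃ u, y₃ = y₁ + u := ⟨y₃ - y₁, by ring⟩
    obtain ⟨p, rfl⟩ : ∃ p, x₂ = x₁ + p := ⟨x₂ - x₁, by ring⟩
    obtain ⟨q, rfl⟩ : ∃ q, x₃ = x₁ + p + q := ⟨x₃ - (x₁ + p), by ring⟩
    ring
  · change pe (Wv x₁ y₁ x₂ y₂ x₃ y₃) * Wv x₁ y₁ x₂ y₂ x₃ y₃ 0 ^ 2 =
      _ * Wv x₁ (-y₁ - a₃) x₂ y₂ x₃ y₃ 3
    rw [W_e e1 e3]
    simp only [Wv0, Wv1, Wv2, Wv3]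
    obtain ⟨d, rfl⟩ : ∃ d, y₂ = y₁ + d := ⟨y₂ - y₁, by ring⟩
    obtain ⟨u, rfl⟩ : ∃ u, y₃ = y₁ + u := ⟨y₃ - y₁, by ring⟩
    obtain ⟨p, rfl⟩ : ∃ p, x₂ = x₁ + p := ⟨x₂ - x₁, by ring⟩
    obtain ⟨q, rfl⟩ : ∃ q, x₃ = x₁ + p + q := ⟨x₃ - (x₁ + p), by ring⟩
    ring

theorem W_mapD (e1 : y₁ ^ 2 + a₃ * y₁ = x₁ ^ 3 + a₆)
    (e2 : y₂ ^ 2 + a₃ * y₂ = x₂ ^ 3 + a₆) (e3 : y₃ ^ 2 + a₃ * y₃ = x₃ ^ 3 + a₆) :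
    mapD (Wv x₁ y₁ x₂ y₂ x₃ y₃) =
      (-((y₂ - y₁) ^ 5 * (Wv x₁ y₁ x₂ y₂ x₃ y₃ 3 - Wv x₁ y₁ x₂ y₂ x₃ y₃ 0))) •
        Wv x₁ y₁ x₂ (-y₂ - a₃) x₃ y₃ := by
  funext i
  fin_cases i
  · change Wv x₁ y₁ x₂ y₂ x₃ y₃ 0 * ((Wv x₁ y₁ x₂ y₂ x₃ y₃ 3 - Wv x₁ y₁ x₂ y₂ x₃ y₃ 0) *
      pc (Wv x₁ y₁ x₂ y₂ x₃ y₃)) = _ * Wv x₁ y₁ x₂ (-y₂ - a₃) x₃ y₃ 0
    rw [W_c e1 e2]
    simp only [Wv0, Wv1, Wv2, Wv3]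
    obtain ⟨d, rfl⟩ : ∃ d, y₂ = y₁ + d := ⟨y₂ - y₁, by ring⟩
    obtain ⟨u, rfl⟩ : ∃ u, y₃ = y₁ + u := ⟨y₃ - y₁, by ring⟩
    obtain ⟨p, rfl⟩ : ∃ p, x₂ = x₁ + p := ⟨x₂ - x₁, by ring⟩
    obtain ⟨q, rfl⟩ : ∃ q, x₃ = x₁ + p + q := ⟨x₃ - (x₁ + p), by ring⟩
    ring
  · change Wv x₁ y₁ x₂ y₂ x₃ y₃ 1 * ((Wv x₁ y₁ x₂ y₂ x₃ y₃ 3 - Wv x₁ y₁ x₂ y₂ x₃ y₃ 0) *
      pc (Wv x₁ y₁ x₂ y₂ x₃ y₃)) = _ * Wv x₁ y₁ x₂ (-y₂ - a₃) x₃ y₃ 1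
    rw [W_c e1 e2]
    simp only [Wv0, Wv1, Wv2, Wv3]
    obtain ⟨d, rfl⟩ : ∃ d, y₂ = y₁ + d := ⟨y₂ - y₁, by ring⟩
    obtain ⟨u, rfl⟩ : ∃ u, y₃ = y₁ + u := ⟨y₃ - y₁, by ring⟩
    obtain ⟨p, rfl⟩ : ∃ p, x₂ = x₁ + p := ⟨x₂ - x₁, by ring⟩
    obtain ⟨q, rfl⟩ : ∃ q, x₃ = x₁ + p + q := ⟨x₃ - (x₁ + p), by ring⟩
    ring
  · change Wv x₁ y₁ x₂ y₂ x₃ y₃ 2 * ((Wv x₁ y₁ x₂ y₂ x₃ y₃ 3 - Wv x₁ y₁ x₂ y₂ x₃ y₃ 0) *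
      pc (Wv x₁ y₁ x₂ y₂ x₃ y₃)) = _ * Wv x₁ y₁ x₂ (-y₂ - a₃) x₃ y₃ 2
    rw [W_c e1 e2]
    simp only [Wv0, Wv1, Wv2, Wv3]
    obtain ⟨d, rfl⟩ : ∃ d, y₂ = y₁ + d := ⟨y₂ - y₁, by ring⟩
    obtain ⟨u, rfl⟩ : ∃ u, y₃ = y₁ + u := ⟨y₃ - y₁, by ring⟩
    obtain ⟨p, rfl⟩ : ∃ p, x₂ = x₁ + p := ⟨x₂ - x₁, by ring⟩
    obtain ⟨q, rfl⟩ : ∃ q, x₃ = x₁ + p + q := ⟨x₃ - (x₁ + p), by ring⟩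
    ring
  · change - Wv x₁ y₁ x₂ y₂ x₃ y₃ 0 * pM (Wv x₁ y₁ x₂ y₂ x₃ y₃) =
      _ * Wv x₁ y₁ x₂ (-y₂ - a₃) x₃ y₃ 3
    rw [W_M e1 e2 e3]
    simp only [Wv0, Wv1, Wv2, Wv3]
    obtain ⟨d, rfl⟩ : ∃ d, y₂ = y₁ + d := ⟨y₂ - y₁, by ring⟩
    obtain ⟨u, rfl⟩ : ∃ u, y₃ = y₁ + u := ⟨y₃ - y₁, by ring⟩
    obtain ⟨p, rfl⟩ : ∃ p, x₂ = x₁ + p := ⟨x₂ - x₁, by ring⟩
    obtain ⟨q, rfl⟩ : ∃ q, x₃ = x₁ + p + q := ⟨x₃ - (x₁ + p), by ring⟩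
    ring

end identities

end Pool.Agent.L0h91.DG
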