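import Mathlib
import Pool.Agent.L0h91.DG.Maps

/-!
# Vectors representing triples of points
-/

set_option autoImplicit false
set_option linter.unusedSectionVars false
set_option linter.unusedSimpArgs false

namespace Pool.Agent.L0h91.DG

open WeierstrassCurve.Affine

/-- the condition under which all elementary maps are defined -/
def cnd {R : Type*} [CommRing R] (v : Fin 4 → R) : R := pl v * (pT v * (v 1 - v 0))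

theorem map_cnd {R S : Type*} [CommRing R] [CommRing S] (φ : R →+* S) (v : Fin 4 → R) :
    φ (cnd v) = cnd (fun i => φ (v i)) := by
  simp only [cnd, map_mul, map_sub, map_pl, map_pT]

variable {L : Type*} [Field L] [DecidableEq L] {a₃ a₆ : L}

/-- `v` represents the triple `(P, Q, R)` -/
def Rep (v : Fin 4 → L) (P Q R : (EC a₃ a₆).toAffine.Point) : Prop :=
  ∃ (x₁ y₁ : L) (h₁ : (EC a₃ a₆).toAffine.Nonsingular x₁ y₁)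
    (x₂ y₂ : L) (h₂ : (EC a₃ a₆).toAffine.Nonsingular x₂ y₂)
    (x₃ y₃ : L) (h₃ : (EC a₃ a₆).toAffine.Nonsingular x₃ y₃) (μ : L),
    P = Point.some x₁ y₁ h₁ ∧ Q = Point.some x₂ y₂ h₂ ∧ R = Point.some x₃ y₃ h₃ ∧
    μ ≠ 0 ∧ v = μ • Wv x₁ y₁ x₂ y₂ x₃ y₃

theorem Rep.smul {v : Fin 4 → L} {P Q R : (EC a₃ a₆).toAffine.Point} (h : Rep v P Q R)
    {c : L} (hc : c ≠ 0) : Rep (c • v) P Q R := by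
  obtain ⟨x₁, y₁, h₁, x₂, y₂, h₂, x₃, y₃, h₃, μ, hP, hQ, hR, hμ, hv⟩ := h
  exact ⟨x₁, y₁, h₁, x₂, y₂, h₂, x₃, y₃, h₃, c * μ, hP, hQ, hR, mul_ne_zero hc hμ,
    by rw [hv, smul_smul]⟩

theorem Rep.of_smul {v : Fin 4 → L} {P Q R : (EC a₃ a₆).toAffine.Point}
    {c : L} (hc : c ≠ 0) (h : Rep (c • v) P Q R) : Rep v P Q R := by
  have := h.smul (inv_ne_zero hc)
  rwa [smul_smul, inv_mul_cancel₀ hc, one_smul] at this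

theorem cnd_smul (μ : L) (v : Fin 4 → L) : cnd (μ • v) = μ ^ 12 * cnd v := by
  simp only [cnd, pl_smul, pT_smul, Pi.smul_apply, smul_eq_mul]; ring

/-- the value of `cnd` on the vector of a triple of points -/
theorem W_cnd {x₁ y₁ x₂ y₂ x₃ y₃ : L} (e1 : y₁ ^ 2 + a₃ * y₁ = x₁ ^ 3 + a₆)
    (e2 : y₂ ^ 2 + a₃ * y₂ = x₂ ^ 3 + a₆) (e3 : y₃ ^ 2 + a₃ * y₃ = x₃ ^ 3 + a₆) :
    cnd (Wv x₁ y₁ x₂ y₂ x₃ y₃) =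
      x₁ ^ 5 * (y₂ - y₁) ^ 9 * (y₃ - y₁) ^ 3 * (y₃ - y₂) ^ 2 * (x₃ - x₂) ^ 3 *
        (x₂ - x₁) := by
  rw [cnd, W_l e1 e2 e3, W_T, Wv0, Wv1]
  obtain ⟨d, rfl⟩ : ∃ d, y₂ = y₁ + d := ⟨y₂ - y₁, by ring⟩
  obtain ⟨u, rfl⟩ : ∃ u, y₃ = y₁ + u := ⟨y₃ - y₁, by ring⟩
  obtain ⟨p, rfl⟩ : ∃ p, x₂ = x₁ + p := ⟨x₂ - x₁, by ring⟩
  obtain ⟨q, rfl⟩ : ∃ q, x₃ = x₁ + p + q := ⟨x₃ - (x₁ + p), by ring⟩
  ring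

/-- extraction of the nondegeneracy of the triple -/
theorem Rep.out {v : Fin 4 → L} {P Q R : (EC a₃ a₆).toAffine.Point} (h : Rep v P Q R)
    (hc : cnd v ≠ 0) :
    ∃ (x₁ y₁ : L) (h₁ : (EC a₃ a₆).toAffine.Nonsingular x₁ y₁)
    (x₂ y₂ : L) (h₂ : (EC a₃ a₆).toAffine.Nonsingular x₂ y₂)
    (x₃ y₃ : L) (h₃ : (EC a₃ a₆).toAffine.Nonsingular x₃ y₃) (μ : L),
    P = Point.some x₁ y₁ h₁ ∧ Q = Point.some x₂ y₂ h₂ ∧ R = Point.some x₃ y₃ h₃ ∧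
    μ ≠ 0 ∧ v = μ • Wv x₁ y₁ x₂ y₂ x₃ y₃ ∧ x₁ ≠ 0 ∧ y₂ - y₁ ≠ 0 ∧ y₃ - y₁ ≠ 0 ∧
    y₃ - y₂ ≠ 0 ∧ x₃ - x₂ ≠ 0 ∧ x₂ - x₁ ≠ 0 := by
  obtain ⟨x₁, y₁, h₁, x₂, y₂, h₂, x₃, y₃, h₃, μ, hP, hQ, hR, hμ, hv⟩ := h
  have h' : cnd (Wv x₁ y₁ x₂ y₂ x₃ y₃) ≠ 0 := by
    intro h0
    apply hc
    rw [hv, cnd_smul, h0, mul_zero]
  rw [W_cnd (eqn h₁) (eqn h₂) (eqn h₃)] at h'
  have g1 : x₁ ≠ 0 := by rintro rfl; apply h'; ring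
  have g2 : y₂ - y₁ ≠ 0 := by intro h0; apply h'; rw [h0]; ring
  have g3 : y₃ - y₁ ≠ 0 := by intro h0; apply h'; rw [h0]; ring
  have g4 : y₃ - y₂ ≠ 0 := by intro h0; apply h'; rw [h0]; ring
  have g5 : x₃ - x₂ ≠ 0 := by intro h0; apply h'; rw [h0]; ring
  have g6 : x₂ - x₁ ≠ 0 := by intro h0; apply h'; rw [h0]; ring
  exact ⟨x₁, y₁, h₁, x₂, y₂, h₂, x₃, y₃, h₃, μ, hP, hQ, hR, hμ, hv, g1, g2, g3, g4, g5, g6⟩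

theorem Rep.stepB {v : Fin 4 → L} {P Q R : (EC a₃ a₆).toAffine.Point} (h : Rep v P Q R)
    (hc : cnd v ≠ 0) : Rep (mapB v) P Q (Q + R) := by
  obtain ⟨x₁, y₁, h₁, x₂, y₂, h₂, x₃, y₃, h₃, μ, hP, hQ, hR, hμ, hv, g1, g2, g3, g4, g5, g6⟩ :=
    h.out hc
  obtain ⟨x₅, y₅, h₅, h, h5, k5⟩ := add_gen h₂ h₃ (fun e => g5 (by rw [e]; ring))
  refine ⟨x₁, y₁, h₁, x₂, y₂, h₂, x₅, y₅, h₅, μ ^ 10 * pl (Wv x₁ y₁ x₂ y₂ x₃ y₃), hP, hQ,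
    by rw [hQ, hR, h], ?_, ?_⟩
  · rw [W_l (eqn h₁) (eqn h₂) (eqn h₃)]
    exact mul_ne_zero (pow_ne_zero _ hμ) (mul_ne_zero (mul_ne_zero (mul_ne_zero (mul_ne_zero
      (pow_ne_zero _ g1) (pow_ne_zero _ g2)) (pow_ne_zero _ g3)) g4) (pow_ne_zero _ g5))
  · rw [hv, mapB_smul, W_mapB (eqn h₁) (eqn h₂) (eqn h₃) h5 k5, smul_smul]

theorem Rep.stepA {v : Fin 4 → L} {P Q R : (EC a₃ a₆).toAffine.Point} (h : Rep v P Q R)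
    (hc : cnd v ≠ 0) : Rep (mapA v) P (P + Q) R := by
  obtain ⟨x₁, y₁, h₁, x₂, y₂, h₂, x₃, y₃, h₃, μ, hP, hQ, hR, hμ, hv, g1, g2, g3, g4, g5, g6⟩ :=
    h.out hc
  obtain ⟨x₄, y₄, h₄, h, h4, k4⟩ := add_gen h₁ h₂ (fun e => g6 (by rw [e]; ring))
  refine ⟨x₁, y₁, h₁, x₄, y₄, h₄, x₃, y₃, h₃, μ ^ 15 * ?_, hP, by rw [hP, hQ, h], hR, ?_, ?_⟩
  rotate_left 2
  · rw [hv, mapA_smul, W_mapA (eqn h₁) (eqn h₂) (eqn h₃) h4 k4, smul_smul]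
  · rw [W_M (eqn h₁) (eqn h₂) (eqn h₃), W_T, Wv0, Wv1]
    refine mul_ne_zero (pow_ne_zero _ hμ) (mul_ne_zero (mul_ne_zero (mul_ne_zero
      (pow_ne_zero _ (mul_ne_zero (mul_ne_zero (pow_ne_zero _ g1) g3) g4))
      (mul_ne_zero (mul_ne_zero (mul_ne_zero g1 (pow_ne_zero _ g2)) g3) g4))
      (pow_ne_zero _ ?_)) (mul_ne_zero g1 g2))
    rw [← sub_mul]
    exact mul_ne_zero g6 g2

theorem Rep.stepC {v : Fin 4 → L} {P Q R : (EC a₃ a₆).toAffine.Point} (h : Rep v P Q R)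
    (hc : cnd v ≠ 0) : Rep (mapC v) (-P) Q R := by
  obtain ⟨x₁, y₁, h₁, x₂, y₂, h₂, x₃, y₃, h₃, μ, hP, hQ, hR, hμ, hv, g1, g2, g3, g4, g5, g6⟩ :=
    h.out hc
  obtain ⟨h₄, h⟩ := neg_pt h₁
  refine ⟨x₁, -y₁ - a₃, h₄, x₂, y₂, h₂, x₃, y₃, h₃, μ ^ 5 * ?_, by rw [hP, h], hQ, hR, ?_, ?_⟩
  rotate_left 2
  · rw [hv, mapC_smul, W_mapC (eqn h₁) (eqn h₂) (eqn h₃), smul_smul]
  · rw [Wv3]
    exact mul_ne_zero (pow_ne_zero _ hμ) (mul_ne_zero (pow_ne_zero _ g2) (mul_ne_zero g1 g3))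

theorem Rep.stepD {v : Fin 4 → L} {P Q R : (EC a₃ a₆).toAffine.Point} (h : Rep v P Q R)
    (hc : cnd v ≠ 0) : Rep (mapD v) P (-Q) R := by
  obtain ⟨x₁, y₁, h₁, x₂, y₂, h₂, x₃, y₃, h₃, μ, hP, hQ, hR, hμ, hv, g1, g2, g3, g4, g5, g6⟩ :=
    h.out hc
  obtain ⟨h₄, h⟩ := neg_pt h₂
  refine ⟨x₁, y₁, h₁, x₂, -y₂ - a₃, h₄, x₃, y₃, h₃, μ ^ 5 * ?_, hP, by rw [hQ, h], hR, ?_, ?_⟩
  rotate_left 2
  · rw [hv, mapD_smul, W_mapD (eqn h₁) (eqn h₂) (eqn h₃), smul_smul]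
  · rw [Wv3, Wv0]
    refine mul_ne_zero (pow_ne_zero _ hμ) (neg_ne_zero.2 (mul_ne_zero (pow_ne_zero _ g2) ?_))
    have : x₁ * (y₃ - y₁) - x₁ * (y₂ - y₁) = x₁ * (y₃ - y₂) := by ring
    rw [this]
    exact mul_ne_zero g1 g4

/-- the nondegeneracy of a vector from the nondegeneracy of the triple -/
theorem Rep.cnd_ne {v : Fin 4 → L} {P Q R : (EC a₃ a₆).toAffine.Point} (h : Rep v P Q R)
    (hg : ∀ (x₁ y₁ : L) (h₁ : (EC a₃ a₆).toAffine.Nonsingular x₁ y₁)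
    (x₂ y₂ : L) (h₂ : (EC a₃ a₆).toAffine.Nonsingular x₂ y₂)
    (x₃ y₃ : L) (h₃ : (EC a₃ a₆).toAffine.Nonsingular x₃ y₃),
    P = Point.some x₁ y₁ h₁ → Q = Point.some x₂ y₂ h₂ → R = Point.some x₃ y₃ h₃ →
    x₁ ≠ 0 ∧ y₂ - y₁ ≠ 0 ∧ y₃ - y₁ ≠ 0 ∧
    y₃ - y₂ ≠ 0 ∧ x₃ - x₂ ≠ 0 ∧ x₂ - x₁ ≠ 0) : cnd v ≠ 0 := by
  obtain ⟨x₁, y₁, h₁, x₂, y₂, h₂, x₃, y₃, h₃, μ, hP, hQ, hR, hμ, hv⟩ := h
  obtain ⟨g1, g2, g3, g4, g5, g6⟩ := hg x₁ y₁ h₁ x₂ y₂ h₂ x₃ y₃ h₃ hP hQ hR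
  rw [hv, cnd_smul, W_cnd (eqn h₁) (eqn h₂) (eqn h₃)]
  exact mul_ne_zero (pow_ne_zero _ hμ) (mul_ne_zero (mul_ne_zero (mul_ne_zero (mul_ne_zero
    (mul_ne_zero (pow_ne_zero _ g1) (pow_ne_zero _ g2)) (pow_ne_zero _ g3)) (pow_ne_zero _ g4))
    (pow_ne_zero _ g5)) g6)

end Pool.Agent.L0h91.DG
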