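import Mathlib
import Pool.Agent.L0h91.DG.Rep
import Pool.Agent.L0h91.DG.CxPt

/-!
# Every vector in general position represents a triple of points
-/

set_option autoImplicit false
set_option linter.unusedSectionVars false
set_option linter.unusedSimpArgs false

namespace Pool.Agent.L0h91.DG

open WeierstrassCurve.Affine

section triple

variable {F : Type*} [Field F] [DecidableEq F]

/-- the triple of points attached to a vector in general position -/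
theorem exists_triple (h3 : (3 : F) ≠ 0) (v : Fin 4 → F) (h0 : v 0 ≠ 0) (hM : pM v ≠ 0)
    (hT : pT v ≠ 0)
    (hq : (pc v * pT v - pM v * v 0) ^ 2 - 4 * pM v * pT v * v 0 ^ 4 ≠ 0)
    (κ a₃ a₆ : F) (hκ : κ = pM v / (pT v * v 0 ^ 2)) (ha₃ : a₃ = κ * (pc v / v 0 ^ 3 - κ))
    (ha₆ : a₆ = -κ ^ 3) :
    ∃ (h₁ : (EC a₃ a₆).toAffine.Nonsingular κ 0)
      (h₂ : (EC a₃ a₆).toAffine.Nonsingular (κ * v 1 / v 0) (κ ^ 2))
      (h₃ : (EC a₃ a₆).toAffine.Nonsingular (κ * v 2 / v 0) (κ ^ 2 * v 3 / v 0)),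
      Rep v (Point.some _ _ h₁) (Point.some _ _ h₂) (Point.some _ _ h₃) := by
  have hκ0 : κ ≠ 0 := by
    rw [hκ]; exact div_ne_zero hM (mul_ne_zero hT (pow_ne_zero _ h0))
  have hκ' : κ * (pT v * v 0 ^ 2) = pM v := by
    rw [hκ, div_mul_cancel₀ _ (mul_ne_zero hT (pow_ne_zero _ h0))]
  have hb : a₃ ^ 2 + 4 * a₆ ≠ 0 := by
    intro hb
    apply hq
    have e1 : a₃ ^ 2 + 4 * a₆ = κ ^ 2 * ((pc v / v 0 ^ 3 - κ) ^ 2 - 4 * κ) := by
      rw [ha₃, ha₆]; ring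
    rw [e1] at hb
    have e2 : (pc v / v 0 ^ 3 - κ) ^ 2 - 4 * κ = 0 :=
      (mul_eq_zero.1 hb).resolve_left (pow_ne_zero _ hκ0)
    have e3 : pc v = pc v / v 0 ^ 3 * v 0 ^ 3 := by
      rw [div_mul_cancel₀ _ (pow_ne_zero _ h0)]
    generalize pc v / v 0 ^ 3 = c' at e2 e3
    rw [e3, ← hκ']
    linear_combination (pT v ^ 2 * v 0 ^ 6) * e2
  have hP : (0 : F) ^ 2 + a₃ * 0 = κ ^ 3 + a₆ := by rw [ha₆]; ring
  have hQ : (κ ^ 2) ^ 2 + a₃ * κ ^ 2 = (κ * v 1 / v 0) ^ 3 + a₆ := by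
    rw [ha₃, ha₆]
    simp only [pc]
    field_simp
    ring
  have hR : (κ ^ 2 * v 3 / v 0) ^ 2 + a₃ * (κ ^ 2 * v 3 / v 0) =
      (κ * v 2 / v 0) ^ 3 + a₆ := by
    have e4 : κ * (v 3 * (v 3 - v 0) * v 0 ^ 2) =
        (v 2 ^ 3 - v 0 ^ 3) * v 0 - (v 1 ^ 3 - v 0 ^ 3) * v 3 := hκ'
    rw [ha₃, ha₆]
    simp only [pc]
    field_simp
    linear_combination e4
  refine ⟨nonsing h3 hb hP, nonsing h3 hb hQ, nonsing h3 hb hR, κ, 0, _, _, _, _, _, _, _,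
    v 0 / κ ^ 3, rfl, rfl, rfl, div_ne_zero h0 (pow_ne_zero _ hκ0), ?_⟩
  funext i
  rw [Pi.smul_apply, smul_eq_mul]
  fin_cases i
  · change v 0 = v 0 / κ ^ 3 * (κ * (κ ^ 2 - 0))
    field_simp
    ring
  · change v 1 = v 0 / κ ^ 3 * (κ * v 1 / v 0 * (κ ^ 2 - 0))
    field_simp
    ring
  · change v 2 = v 0 / κ ^ 3 * (κ * v 2 / v 0 * (κ ^ 2 - 0))
    field_simp
    ring
  · change v 3 = v 0 / κ ^ 3 * (κ * (κ ^ 2 * v 3 / v 0 - 0))
    field_simp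
    ring

end triple

end Pool.Agent.L0h91.DG
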