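import Mathlib
import Pool.Agent.R833.Poly
import Pool.Agent.L0h91.DG.Maps

/-!
# Auxiliary facts on forms
-/

set_option autoImplicit false
set_option linter.unusedSectionVars false
set_option linter.unusedSimpArgs false

namespace Pool.Agent.L0h91.DG

open MvPolynomial

section hom

variable {σ K : Type*} [Field K] {v : Fin 4 → MvPolynomial σ K} {e : ℕ}

theorem hm {p : MvPolynomial σ K} {a b : ℕ} (h : p.IsHomogeneous a) (hab : a = b) :
    p.IsHomogeneous b := hab ▸ h

theorem hom_pc (hv : ∀ i, (v i).IsHomogeneous e) : (pc v).IsHomogeneous (3 * e) :=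
  hm (((hv 1).pow 3).sub ((hv 0).pow 3)) (by ring)

theorem hom_pe (hv : ∀ i, (v i).IsHomogeneous e) : (pe v).IsHomogeneous (3 * e) :=
  hm (((hv 2).pow 3).sub ((hv 0).pow 3)) (by ring)

theorem hom_pM (hv : ∀ i, (v i).IsHomogeneous e) : (pM v).IsHomogeneous (4 * e) :=
  hm (((hom_pe hv).mul (hv 0)).sub ((hom_pc hv).mul (hv 3))) (by ring)

theorem hom_pT (hv : ∀ i, (v i).IsHomogeneous e) : (pT v).IsHomogeneous (2 * e) :=
  hm ((hv 3).mul ((hv 3).sub (hv 0))) (by ring)

theorem hom_pU (hv : ∀ i, (v i).IsHomogeneous e) : (pU v).IsHomogeneous (5 * e) :=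
  (hm ((hom_pM hv).mul (hv 0)) (by ring)).sub
    (hm ((((hv 0).add (hv 1)).mul (((hv 1).sub (hv 0)).pow 2)).mul (hom_pT hv)) (by ring))

theorem hom_pV (hv : ∀ i, (v i).IsHomogeneous e) : (pV v).IsHomogeneous (5 * e) :=
  (hm ((hom_pM hv).mul ((hv 3).sub (hv 0))) (by ring)).sub
    (hm (((((hv 1).add (hv 2)).mul (((hv 2).sub (hv 1)).pow 2)).mul (hv 3)).mul (hv 0))
      (by ring))

theorem hom_pnum (hv : ∀ i, (v i).IsHomogeneous e) : (pnum v).IsHomogeneous (10 * e) := by
  have h1 : (pV v - v 1 * v 3 * (v 2 - v 1) ^ 2 * v 0).IsHomogeneous (5 * e) :=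
    (hom_pV hv).sub (hm ((((hv 1).mul (hv 3)).mul (((hv 2).sub (hv 1)).pow 2)).mul (hv 0))
      (by ring))
  have h2 : (pc v * v 3 ^ 2 * (v 2 - v 1) ^ 3 * v 0).IsHomogeneous (9 * e) :=
    hm ((((hom_pc hv).mul ((hv 3).pow 2)).mul (((hv 2).sub (hv 1)).pow 3)).mul (hv 0)) (by ring)
  exact hm (((hv 3).sub (hv 0)).mul ((hm (h1.mul (hom_pM hv)) (by ring)).add h2)) (by ring)

theorem hom_pden (hv : ∀ i, (v i).IsHomogeneous e) : (pden v).IsHomogeneous (10 * e) := by
  have h1 : (pU v - pT v * (v 1 - v 0) ^ 2 * v 0).IsHomogeneous (5 * e) :=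
    (hom_pU hv).sub (hm (((hom_pT hv).mul (((hv 1).sub (hv 0)).pow 2)).mul (hv 0)) (by ring))
  have h2 : (pc v * pT v - pM v * v 0).IsHomogeneous (5 * e) :=
    (hm ((hom_pc hv).mul (hom_pT hv)) (by ring)).sub (hm ((hom_pM hv).mul (hv 0)) (by ring))
  exact (hm ((h1.mul (hom_pM hv)).mul (hv 0)) (by ring)).add
    (hm ((h2.mul (hom_pT hv)).mul (((hv 1).sub (hv 0)).pow 3)) (by ring))

theorem hom_pl (hv : ∀ i, (v i).IsHomogeneous e) : (pl v).IsHomogeneous (9 * e) :=
  hm ((((hv 3).mul (((hv 2).sub (hv 1)).pow 3)).mul (hom_pM hv)).mul (hv 0)) (by ring)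

theorem hom_mapB (hv : ∀ i, (v i).IsHomogeneous e) (i : Fin 4) :
    (mapB v i).IsHomogeneous (10 * e) := by
  fin_cases i
  · exact hm ((hv 0).mul (hom_pl hv)) (by ring)
  · exact hm ((hv 1).mul (hom_pl hv)) (by ring)
  · exact hm (((hom_pV hv).mul ((hv 2).sub (hv 1))).mul (hom_pM hv)) (by ring)
  · exact (hom_pnum hv).neg

theorem hom_mapA (hv : ∀ i, (v i).IsHomogeneous e) (i : Fin 4) :
    (mapA v i).IsHomogeneous (15 * e) := by
  fin_cases i
  · exact hm ((hom_pden hv).neg.mul (((hom_pT hv).mul (((hv 1).sub (hv 0)).pow 2)).mul (hv 0)))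
      (by ring)
  · exact hm ((hom_pden hv).neg.mul (hom_pU hv)) (by ring)
  · exact hm ((hom_pden hv).neg.mul (((hv 2).mul (hom_pT hv)).mul (((hv 1).sub (hv 0)).pow 2)))
      (by ring)
  · exact hm (((((hv 3).mul ((hom_pT hv).pow 2)).mul (hom_pM hv)).mul
      (((hv 1).sub (hv 0)).pow 5)).mul (hv 0)) (by ring)

theorem hom_mapC (hv : ∀ i, (v i).IsHomogeneous e) (i : Fin 4) :
    (mapC v i).IsHomogeneous (5 * e) := by
  fin_cases i
  · exact hm ((hv 0).mul ((hom_pc hv).mul (hv 3))) (by ring)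
  · exact hm ((hv 1).mul ((hom_pc hv).mul (hv 3))) (by ring)
  · exact hm ((hv 2).mul ((hom_pc hv).mul (hv 3))) (by ring)
  · exact hm ((hom_pe hv).mul ((hv 0).pow 2)) (by ring)

theorem hom_mapD (hv : ∀ i, (v i).IsHomogeneous e) (i : Fin 4) :
    (mapD v i).IsHomogeneous (5 * e) := by
  fin_cases i
  · exact hm ((hv 0).mul (((hv 3).sub (hv 0)).mul (hom_pc hv))) (by ring)
  · exact hm ((hv 1).mul (((hv 3).sub (hv 0)).mul (hom_pc hv))) (by ring)
  · exact hm ((hv 2).mul (((hv 3).sub (hv 0)).mul (hom_pc hv))) (by ring)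
  · exact hm ((hv 0).neg.mul (hom_pM hv)) (by ring)

end hom

/-- removal of the greatest common divisor -/
theorem exists_primitive {T : Type*} [CommRing T] [IsDomain T] [UniqueFactorizationMonoid T]
    {ι : Type*} [Fintype ι] [Nonempty ι] (F : ι → T) :
    ∃ (H : T) (f : ι → T), (∀ i, F i = H * f i) ∧ ∀ h : T, (∀ i, h ∣ f i) → IsUnit h := by
  classical
  let _ : StrongNormalizationMonoid T := UniqueFactorizationMonoid.strongNormalizationMonoid
  let _ : NormalizedGCDMonoid T := UniqueFactorizationMonoid.toNormalizedGCDMonoid T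
  obtain ⟨g, hg, hg1⟩ := Finset.extract_gcd F (Finset.univ_nonempty)
  refine ⟨Finset.univ.gcd F, g, fun i => hg i (Finset.mem_univ i), ?_⟩
  intro h hh
  have : h ∣ Finset.univ.gcd g := Finset.dvd_gcd fun i _ => hh i
  rw [hg1] at this
  exact isUnit_of_dvd_one this

/-- the cofactors of a common factor of forms of one degree are forms of one degree -/
theorem exists_homog {K : Type*} [Field K] {ι σ : Type*} {H : MvPolynomial σ K}
    {f : ι → MvPolynomial σ K} {n : ℕ} (h : ∀ i, (H * f i).IsHomogeneous n) (hH : H ≠ 0)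
    (i₀ : ι) (hi₀ : f i₀ ≠ 0) : ∃ d, ∀ i, (f i).IsHomogeneous d := by
  obtain ⟨a, ha⟩ := R833.homogeneous_of_dvd (h i₀) (mul_ne_zero hH hi₀) (dvd_mul_right _ _)
  refine ⟨n - a, fun i => ?_⟩
  by_cases hi : f i = 0
  · rw [hi]; exact isHomogeneous_zero _ _ _
  · obtain ⟨k, hk⟩ := R833.homogeneous_of_dvd (h i) (mul_ne_zero hH hi) (dvd_mul_left _ _)
    have : a + k = n := (ha.mul hk).inj_right (h i) (mul_ne_zero hH hi)
    exact hm hk (by omega)

section deg

variable {K : Type*} [Field K]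

/-- substitution of univariate polynomials into a form -/
theorem natDegree_aeval_le {σ : Type*} {g : MvPolynomial σ K} {e D : ℕ}
    (hg : g.IsHomogeneous e) (v : σ → Polynomial K) (hv : ∀ i, (v i).natDegree ≤ D) :
    (MvPolynomial.aeval v g).natDegree ≤ e * D := by
  rw [MvPolynomial.aeval_def, MvPolynomial.eval₂_eq]
  apply Polynomial.natDegree_sum_le_of_forall_le
  intro d hd
  have h1 : (algebraMap K (Polynomial K)) (coeff d g) = Polynomial.C (coeff d g) := rfl
  rw [h1]
  refine (Polynomial.natDegree_C_mul_le _ _).trans ?_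
  refine (Polynomial.natDegree_prod_le _ _).trans ?_
  have h2 : ∑ i ∈ d.support, d i = e := by
    have := hg (mem_support_iff.1 hd)
    rw [← this, Finsupp.weight_apply, Finsupp.sum]
    simp
  rw [← h2, Finset.sum_mul]
  apply Finset.sum_le_sum
  intro i _
  exact (Polynomial.natDegree_pow_le).trans (Nat.mul_le_mul_left _ (hv i))

/-- substitution of `h X_l` into a form -/
theorem aeval_mul_X {σ : Type*} {p h : MvPolynomial σ K} {n : ℕ} (hp : p.IsHomogeneous n) :
    MvPolynomial.aeval (fun l => h * X l) p = h ^ n * p := by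
  conv_rhs => rw [← p.support_sum_monomial_coeff]
  rw [MvPolynomial.aeval_def, MvPolynomial.eval₂_eq, Finset.mul_sum]
  apply Finset.sum_congr rfl
  intro d hd
  have h2 : ∑ i ∈ d.support, d i = n := by
    have := hp (mem_support_iff.1 hd)
    rw [← this, Finsupp.weight_apply, Finsupp.sum]
    simp
  rw [monomial_eq, Finsupp.prod]
  simp only [mul_pow, Finset.prod_mul_distrib, Finset.prod_pow_eq_pow_sum, h2]
  have h1 : (algebraMap K (MvPolynomial σ K)) (coeff d p) = C (coeff d p) := rfl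
  rw [h1]
  ring

/-- the forms `h X_l` are algebraically independent -/
theorem aeval_mul_X_eq_zero {σ : Type*} {p h : MvPolynomial σ K} {e : ℕ} (h0 : h ≠ 0)
    (hh : h.IsHomogeneous e) (hp : MvPolynomial.aeval (fun l => h * X l) p = 0) : p = 0 := by
  have h1 : MvPolynomial.aeval (fun l => h * X l) p =
      ∑ i ∈ Finset.range (p.totalDegree + 1), h ^ i * homogeneousComponent i p := by
    conv_lhs => rw [← p.sum_homogeneousComponent]
    rw [map_sum]
    apply Finset.sum_congr rfl
    intro i _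
    exact aeval_mul_X (homogeneousComponent_isHomogeneous i p)
  rw [h1] at hp
  have h2 : ∀ j, homogeneousComponent j p = 0 := by
    intro j
    by_cases hj : j ∈ Finset.range (p.totalDegree + 1)
    · have h3 := congrArg (homogeneousComponent (j * (e + 1))) hp
      rw [map_zero, map_sum] at h3
      have h4 : ∀ i ∈ Finset.range (p.totalDegree + 1),
          homogeneousComponent (j * (e + 1)) (h ^ i * homogeneousComponent i p) =
          if i = j then h ^ j * homogeneousComponent j p else 0 := by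
        intro i _
        have h5 : (h ^ i * homogeneousComponent i p).IsHomogeneous (i * (e + 1)) :=
          hm ((hh.pow i).mul (homogeneousComponent_isHomogeneous i p)) (by ring)
        rw [homogeneousComponent_of_mem ((mem_homogeneousSubmodule _ _).2 h5)]
        by_cases hij : i = j
        · rw [if_pos (by rw [hij]), if_pos hij, hij]
        · rw [if_neg hij, if_neg]
          intro h6
          exact hij (Nat.eq_of_mul_eq_mul_right (Nat.succ_pos e) h6.symm)
      rw [Finset.sum_congr rfl h4, Finset.sum_ite_eq', if_pos hj] at h3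
      exact (mul_eq_zero.1 h3).resolve_left (pow_ne_zero _ h0)
    · apply homogeneousComponent_eq_zero
      simpa using hj
  rw [← p.sum_homogeneousComponent]
  exact Finset.sum_eq_zero fun i _ => h2 i

end deg

end Pool.Agent.L0h91.DG
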