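import Mathlib
import Pool.Agent.L0h91.DG.Height
import Pool.Agent.L0h91.DG.Rep

/-!
# The special triple `(T, 3T, 5T)` on `y² + y = x³`
-/

set_option autoImplicit false
set_option linter.unusedSectionVars false
set_option linter.unusedSimpArgs false

namespace Pool.Agent.L0h91.DG

open Polynomial WeierstrassCurve.Affine

section special

variable {K L : Type*} [Field K] [Field L] [Algebra K L] [DecidableEq L]
variable {a₃ a₆ z y₁ : L}

theorem int_pt (h3 : (3 : K) ≠ 0) (hb : a₃ ^ 2 + 4 * a₆ = 1)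
    (hz : Transcendental K z) (h₁ : (EC a₃ a₆).toAffine.Nonsingular z y₁) (i : ℤ)
    (hi : i ≠ 0) :
    ∃ (x y : L) (h : (EC a₃ a₆).toAffine.Nonsingular x y),
      i • Point.some z y₁ h₁ = Point.some x y h ∧ HD K z i.natAbs x := by
  obtain ⟨x, y, h, e, hx⟩ := HD.all h3 hb hz h₁ i.natAbs (by omega)
  rcases Int.natAbs_eq i with h' | h'
  · refine ⟨x, y, h, ?_, hx⟩
    rw [h', natCast_zsmul, e]
  · obtain ⟨hn, en⟩ := neg_pt h
    refine ⟨x, -y - a₃, hn, ?_, hx⟩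
    rw [h', neg_zsmul, natCast_zsmul, e, en]

theorem special_cnd (h3 : (3 : K) ≠ 0) (hb : a₃ ^ 2 + 4 * a₆ = 1)
    (hz : Transcendental K z) (h₁ : (EC a₃ a₆).toAffine.Nonsingular z y₁) {i j k : ℤ}
    (hi : i ≠ 0) (hj : j ≠ 0) (hk : k ≠ 0) (hij : i.natAbs ≠ j.natAbs)
    (hik : i.natAbs ≠ k.natAbs) (hjk : j.natAbs ≠ k.natAbs) {v : Fin 4 → L}
    (hv : Rep v (i • Point.some z y₁ h₁) (j • Point.some z y₁ h₁) (k • Point.some z y₁ h₁)) :
    cnd v ≠ 0 := by
  apply hv.cnd_ne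
  intro u₁ w₁ g₁ u₂ w₂ g₂ u₃ w₃ g₃ e1 e2 e3
  obtain ⟨x₁, y₁', h₁', f1, k1⟩ := int_pt h3 hb hz h₁ i hi
  obtain ⟨x₂, y₂', h₂', f2, k2⟩ := int_pt h3 hb hz h₁ j hj
  obtain ⟨x₃, y₃', h₃', f3, k3⟩ := int_pt h3 hb hz h₁ k hk
  rw [e1] at f1
  rw [e2] at f2
  rw [e3] at f3
  simp only [Point.some.injEq] at f1 f2 f3
  rw [← f1.1] at k1
  rw [← f2.1] at k2
  rw [← f3.1] at k3
  have q1 := eqn g₁
  have q2 := eqn g₂
  have q3 := eqn g₃
  have c12 := k1.cube_ne hz k2 hij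
  have c13 := k1.cube_ne hz k3 hik
  have c23 := k2.cube_ne hz k3 hjk
  refine ⟨k1.ne_zero hz (by omega), ?_, ?_, ?_, ?_, ?_⟩
  · intro h0
    apply c12
    have : w₂ = w₁ := sub_eq_zero.1 h0
    subst this
    linear_combination q2 - q1
  · intro h0
    apply c13
    have : w₃ = w₁ := sub_eq_zero.1 h0
    subst this
    linear_combination q3 - q1
  · intro h0
    apply c23
    have : w₃ = w₂ := sub_eq_zero.1 h0
    subst this
    linear_combination q3 - q2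
  · intro h0
    apply c23
    rw [sub_eq_zero.1 h0]
  · intro h0
    apply c12
    rw [sub_eq_zero.1 h0]

/-- fractions in `z` -/
def Fr (K : Type*) {L : Type*} [Field K] [Field L] [Algebra K L] (z e : L) : Prop :=
  ∃ p q : K[X], q ≠ 0 ∧ e * aeval z q = aeval z p

theorem Fr.add {e e' : L} (h : Fr K z e) (h' : Fr K z e') : Fr K z (e + e') := by
  obtain ⟨p, q, hq, he⟩ := h
  obtain ⟨p', q', hq', he'⟩ := h'
  refine ⟨p * q' + p' * q, q * q', mul_ne_zero hq hq', ?_⟩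
  simp only [map_mul, map_add]
  rw [← he, ← he']; ring

theorem Fr.mul {e e' : L} (h : Fr K z e) (h' : Fr K z e') : Fr K z (e * e') := by
  obtain ⟨p, q, hq, he⟩ := h
  obtain ⟨p', q', hq', he'⟩ := h'
  refine ⟨p * p', q * q', mul_ne_zero hq hq', ?_⟩
  simp only [map_mul]
  rw [← he, ← he']; ring

theorem Fr.neg {e : L} (h : Fr K z e) : Fr K z (-e) := by
  obtain ⟨p, q, hq, he⟩ := h
  exact ⟨-p, q, hq, by rw [map_neg, ← he]; ring⟩

theorem Fr.sub {e e' : L} (h : Fr K z e) (h' : Fr K z e') : Fr K z (e - e') := by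
  rw [sub_eq_add_neg]; exact h.add h'.neg

theorem Fr.pow {e : L} (h : Fr K z e) (n : ℕ) : Fr K z (e ^ n) := by
  obtain ⟨p, q, hq, he⟩ := h
  exact ⟨p ^ n, q ^ n, pow_ne_zero _ hq, by rw [map_pow, map_pow, ← he]; ring⟩

theorem Fr.self : Fr K z z := ⟨X, 1, one_ne_zero, by simp⟩

theorem HD.fr {m : ℕ} {x : L} (h : HD K z m x) : Fr K z x := by
  obtain ⟨N, D, hc, hN, hD, hD0, hx⟩ := h
  exact ⟨N, D, by rintro rfl; exact hD0 (map_zero _), hx⟩

theorem Fr.vec (hz : Transcendental K z) {e : Fin 4 → L} (h : ∀ i, Fr K z (e i)) :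
    ∃ (v : Fin 4 → K[X]) (c : L), c ≠ 0 ∧ ∀ i, aeval z (v i) = c * e i := by
  choose p q hq he using h
  refine ⟨fun i => p i * ∏ j ∈ Finset.univ.erase i, q j, aeval z (∏ j, q j), ?_, ?_⟩
  · apply aeval_ne hz
    rw [Finset.prod_ne_zero_iff]
    exact fun j _ => hq j
  · intro i
    rw [← Finset.mul_prod_erase Finset.univ q (Finset.mem_univ i), map_mul, map_mul, ← he i]
    ring

/-- difference of second coordinates -/
theorem y_diff (h3 : (3 : K) ≠ 0) (hb : a₃ ^ 2 + 4 * a₆ = 1)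
    (hz : Transcendental K z) (h₁ : (EC a₃ a₆).toAffine.Nonsingular z y₁) (m : ℕ)
    (hm : 2 ≤ m) {x y : L} {h : (EC a₃ a₆).toAffine.Nonsingular x y}
    (e : m • Point.some z y₁ h₁ = Point.some x y h) :
    Fr K z x ∧ Fr K z ((2 * y₁ + a₃) * (y - y₁)) := by
  obtain ⟨x', y', h', e', hx'⟩ := HD.all h3 hb hz h₁ m (by omega)
  obtain ⟨x'', y'', h'', e'', hx''⟩ := HD.all h3 hb hz h₁ (m + 1) (by omega)
  rw [e] at e'
  simp only [Point.some.injEq] at e'
  obtain ⟨rfl, rfl⟩ := e'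
  have hne := hx'.ne_base hz hm
  obtain ⟨u, w, g, f1, f2, -⟩ := add_gen h h₁ hne
  rw [succ_nsmul, e, f1] at e''
  simp only [Point.some.injEq] at e''
  obtain ⟨rfl, rfl⟩ := e''
  have q1 := eqn h₁
  have q2 := eqn h
  have : (2 * y₁ + a₃) * (y - y₁) = x ^ 3 - z ^ 3 - (u + x + z) * (x - z) ^ 2 := by
    linear_combination q2 - q1 + f2
  refine ⟨hx'.fr, ?_⟩
  rw [this]
  exact ((hx'.fr.pow 3).sub (Fr.self.pow 3)).sub
    (((hx''.fr.add hx'.fr).add Fr.self).mul ((hx'.fr.sub Fr.self).pow 2))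

/-- the polynomial vector of the triple `(T, 3T, 5T)` -/
theorem exists_v0 (h3 : (3 : K) ≠ 0) (hb : a₃ ^ 2 + 4 * a₆ = 1)
    (hz : Transcendental K z) (h₁ : (EC a₃ a₆).toAffine.Nonsingular z y₁) :
    ∃ v : Fin 4 → K[X], Rep (fun i => aeval z (v i)) ((1 : ℤ) • Point.some z y₁ h₁)
      ((3 : ℤ) • Point.some z y₁ h₁) ((5 : ℤ) • Point.some z y₁ h₁) := by
  obtain ⟨x₃, y₃, g₃, e3, k3⟩ := HD.all h3 hb hz h₁ 3 (by omega)
  obtain ⟨x₅, y₅, g₅, e5, k5⟩ := HD.all h3 hb hz h₁ 5 (by omega)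
  obtain ⟨u3, w3⟩ := y_diff h3 hb hz h₁ 3 (by omega) e3
  obtain ⟨u5, w5⟩ := y_diff h3 hb hz h₁ 5 (by omega) e5
  have q1 := eqn h₁
  have hy : 2 * y₁ + a₃ ≠ 0 := by
    intro h0
    have hp : (4 * X ^ 3 + 1 : K[X]) ≠ 0 := by
      intro h0
      have := congrArg (eval 0) h0
      simp at this
    apply aeval_ne hz hp
    simp only [map_add, map_mul, map_pow, aeval_X, map_ofNat, map_one]
    linear_combination (2 * y₁ + a₃) * h0 - 4 * q1 - hb
  obtain ⟨v, c, hc, hv⟩ := Fr.vec hz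
    (e := ((2 * y₁ + a₃) • Wv z y₁ x₃ y₃ x₅ y₅)) (by
      intro i
      fin_cases i
      · have := Fr.self.mul w3
        change Fr K z ((2 * y₁ + a₃) * (z * (y₃ - y₁)))
        rwa [mul_left_comm]
      · have := u3.mul w3
        change Fr K z ((2 * y₁ + a₃) * (x₃ * (y₃ - y₁)))
        rwa [mul_left_comm]
      · have := u5.mul w3
        change Fr K z ((2 * y₁ + a₃) * (x₅ * (y₃ - y₁)))
        rwa [mul_left_comm]
      · have := Fr.self.mul w5
        change Fr K z ((2 * y₁ + a₃) * (z * (y₅ - y₁)))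
        rwa [mul_left_comm])
  refine ⟨v, z, y₁, h₁, x₃, y₃, g₃, x₅, y₅, g₅, c * (2 * y₁ + a₃), one_zsmul _, ?_, ?_,
    mul_ne_zero hc hy, ?_⟩
  · rw [← e3]; exact natCast_zsmul _ 3
  · rw [← e5]; exact natCast_zsmul _ 5
  · funext i
    rw [hv i, mul_smul]
    simp only [Pi.smul_apply, smul_eq_mul]

end special

/-- existence of the special point -/
theorem exists_special (K : Type*) [Field K] :
    ∃ (z y : AlgebraicClosure (RatFunc K)), Transcendental K z ∧ y ^ 2 + 1 * y = z ^ 3 + 0 := by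
  set z : AlgebraicClosure (RatFunc K) := algebraMap (RatFunc K) _ RatFunc.X with hz
  obtain ⟨y, hy⟩ := IsAlgClosed.exists_root (X ^ 2 + X - C (z ^ 3)) (by
    have : (X ^ 2 + X - C (z ^ 3)).degree = 2 := by compute_degree!
    rw [this]; norm_num)
  refine ⟨z, y, ?_, ?_⟩
  · rw [hz, transcendental_algebraMap_iff (algebraMap (RatFunc K) _).injective]
    exact RatFunc.transcendental_X
  · have : y ^ 2 + y - z ^ 3 = 0 := by
      simpa [IsRoot] using hy
    linear_combination this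

end Pool.Agent.L0h91.DG
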