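import Mathlib
import Pool.Agent.L0h91.DG.Defs
import Pool.Agent.L0h91.DG.Rep
import Pool.Agent.L0h91.DG.Cx

/-!
# Vectors of polynomials representing two triples of points at the same time
-/

set_option autoImplicit false
set_option linter.unusedSectionVars false
set_option linter.unusedSimpArgs false

namespace Pool.Agent.L0h91.DG

open MvPolynomial WeierstrassCurve.Affine

/-- three nonzero integers with distinct absolute values -/
def Ds (i j k : ℤ) : Prop :=
  i ≠ 0 ∧ j ≠ 0 ∧ k ≠ 0 ∧ i.natAbs ≠ j.natAbs ∧ i.natAbs ≠ k.natAbs ∧ j.natAbs ≠ k.natAbs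

section track

variable {K L : Type*} [Field K] [Field L] [DecidableEq L] [DecidableEq (FF K)]
  {a₃ a₆ : L} {b₃ b₆ : FF K}

/-- nondegeneracy of the multiples of `T` -/
def GoodPt (T : (EC a₃ a₆).toAffine.Point) : Prop :=
  ∀ (i j k : ℤ), Ds i j k → ∀ v : Fin 4 → L, Rep v (i • T) (j • T) (k • T) → cnd v ≠ 0

/-- `v` represents a triple of multiples of `T` after specialisation, and a triple of points over
the field of rational functions -/
def Rep2 (φ : MvPolynomial (Fin 4) K →+* L) (T : (EC a₃ a₆).toAffine.Point)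
    (v : Fin 4 → MvPolynomial (Fin 4) K) (i j k : ℤ)
    (P Q R : (EC b₃ b₆).toAffine.Point) : Prop :=
  Rep (fun l => φ (v l)) (i • T) (j • T) (k • T) ∧ Rep (fun l => io K (v l)) P Q R

variable {φ : MvPolynomial (Fin 4) K →+* L} {T : (EC a₃ a₆).toAffine.Point}
  {v : Fin 4 → MvPolynomial (Fin 4) K} {i j k : ℤ} {P Q R : (EC b₃ b₆).toAffine.Point}

theorem Rep2.cnd (hT : GoodPt T) (h : Rep2 φ T v i j k P Q R) (d : Ds i j k) :
    DG.cnd (fun l => φ (v l)) ≠ 0 ∧ DG.cnd (fun l => io K (v l)) ≠ 0 := by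
  have h1 := hT i j k d _ h.1
  refine ⟨h1, ?_⟩
  rw [← map_cnd] at h1
  have h2 : DG.cnd v ≠ 0 := by
    intro h0
    rw [h0, map_zero] at h1
    exact h1 rfl
  rw [← map_cnd]
  exact io_ne h2

theorem Rep2.stepA (hT : GoodPt T) (h : Rep2 φ T v i j k P Q R) (d : Ds i j k) :
    Rep2 φ T (mapA v) i (i + j) k P (P + Q) R := by
  obtain ⟨c1, c2⟩ := h.cnd hT d
  refine ⟨?_, ?_⟩
  · have := h.1.stepA c1
    rw [add_zsmul]
    simpa only [map_mapA] using this
  · have := h.2.stepA c2
    simpa only [map_mapA] using this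

theorem Rep2.stepB (hT : GoodPt T) (h : Rep2 φ T v i j k P Q R) (d : Ds i j k) :
    Rep2 φ T (mapB v) i j (j + k) P Q (Q + R) := by
  obtain ⟨c1, c2⟩ := h.cnd hT d
  refine ⟨?_, ?_⟩
  · have := h.1.stepB c1
    rw [add_zsmul]
    simpa only [map_mapB] using this
  · have := h.2.stepB c2
    simpa only [map_mapB] using this

theorem Rep2.stepC (hT : GoodPt T) (h : Rep2 φ T v i j k P Q R) (d : Ds i j k) :
    Rep2 φ T (mapC v) (-i) j k (-P) Q R := by
  obtain ⟨c1, c2⟩ := h.cnd hT d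
  refine ⟨?_, ?_⟩
  · have := h.1.stepC c1
    rw [neg_zsmul]
    simpa only [map_mapC] using this
  · have := h.2.stepC c2
    simpa only [map_mapC] using this

theorem Rep2.stepD (hT : GoodPt T) (h : Rep2 φ T v i j k P Q R) (d : Ds i j k) :
    Rep2 φ T (mapD v) i (-j) k P (-Q) R := by
  obtain ⟨c1, c2⟩ := h.cnd hT d
  refine ⟨?_, ?_⟩
  · have := h.1.stepD c1
    rw [neg_zsmul]
    simpa only [map_mapD] using this
  · have := h.2.stepD c2
    simpa only [map_mapD] using this

/-- removal of a common factor -/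
theorem Rep2.of_mul (hT : GoodPt T) {c : MvPolynomial (Fin 4) K}
    {w : Fin 4 → MvPolynomial (Fin 4) K} (hw : ∀ l, v l = c * w l)
    (h : Rep2 φ T v i j k P Q R) (d : Ds i j k) :
    Rep2 φ T w i j k P Q R := by
  obtain ⟨c1, c2⟩ := h.cnd hT d
  have e1 : (fun l => φ (v l)) = φ c • (fun l => φ (w l)) := by
    funext l; rw [hw l, map_mul]; rfl
  have e2 : (fun l => io K (v l)) = io K c • (fun l => io K (w l)) := by
    funext l; rw [hw l, map_mul]; rfl
  have hc : φ c ≠ 0 := by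
    intro h0
    rw [e1, h0, cnd_smul] at c1
    apply c1; ring
  have hc' : io K c ≠ 0 := by
    apply io_ne
    rintro rfl
    exact hc (map_zero _)
  obtain ⟨h1, h2⟩ := h
  rw [e1] at h1
  rw [e2] at h2
  exact ⟨h1.of_smul hc, h2.of_smul hc'⟩

theorem bind_mapAB (v : Fin 4 → MvPolynomial (Fin 4) K) (l : Fin 4) :
    bind₁ v (mapA (mapB X) l) = mapA (mapB v) l := by
  have e := map_mapA (bind₁ v).toRingHom (mapB (X : Fin 4 → MvPolynomial (Fin 4) K)) l
  have e' : ∀ l, (bind₁ v) (mapB (X : Fin 4 → MvPolynomial (Fin 4) K) l) = mapB v l := by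
    intro l
    have := map_mapB (bind₁ v).toRingHom (X : Fin 4 → MvPolynomial (Fin 4) K) l
    simp only [AlgHom.toRingHom_eq_coe, RingHom.coe_coe, bind₁_X_right] at this
    exact this
  simp only [AlgHom.toRingHom_eq_coe, RingHom.coe_coe] at e
  rw [e]
  congr 1
  funext l
  exact e' l

/-- one step of the reduced map -/
theorem Rep2.stepF (hT : GoodPt T) {H : MvPolynomial (Fin 4) K}
    {f : Fin 4 → MvPolynomial (Fin 4) K} (hF : ∀ l, mapA (mapB X) l = H * f l)
    (h : Rep2 φ T v i j k P Q R) (d1 : Ds i j k) (d2 : Ds i j (j + k))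
    (d3 : Ds i (i + j) (j + k)) :
    Rep2 φ T (fun l => bind₁ v (f l)) i (i + j) (j + k) P (P + Q) (Q + R) := by
  refine Rep2.of_mul hT (c := bind₁ v H) ?_ ((h.stepB hT d1).stepA hT d2) d3
  intro l
  rw [← map_mul, ← hF l, bind_mapAB]

end track

end Pool.Agent.L0h91.DG
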