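import Mathlib
import Pool.Agent.L0h91.DG.Generic
import Pool.Agent.L0h91.DG.Special
import Pool.Agent.L0h91.DG.Track
import Pool.Agent.L0h91.DG.PolyAux

/-!
# The degree growth of the map induced by `(P, Q, R) ↦ (P, Q + P, R + Q)`
-/

set_option autoImplicit false
set_option linter.unusedSectionVars false
set_option linter.unusedSimpArgs false

namespace Pool.Agent.L0h91.DG

open MvPolynomial WeierstrassCurve.Affine

theorem cnd_zero {R : Type*} [CommRing R] {v : Fin 4 → R} (h : v 0 = 0) : cnd v = 0 := by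
  simp only [cnd, pl, h]; ring

section start

variable {K : Type*} [Field K]

theorem ne_of_eval {p : MvPolynomial (Fin 4) K} (w : Fin 4 → K) (h : eval w p ≠ 0) : p ≠ 0 := by
  rintro rfl
  exact h (map_zero _)

/-- the test vector -/
def tv (K : Type*) [Field K] : Fin 4 → K := ![0, 1, 0, 1]

theorem tv_pM : eval (tv K) (pM (X : Fin 4 → MvPolynomial (Fin 4) K)) = -1 := by
  rw [map_pM]
  simp [pM, pe, pc, tv]

theorem tv_pT : eval (tv K) (pT (X : Fin 4 → MvPolynomial (Fin 4) K)) = 1 := by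
  rw [map_pT]
  simp [pT, tv]

theorem tv_q : eval (tv K) ((pc (X : Fin 4 → MvPolynomial (Fin 4) K) * pT X - pM X * X 0) ^ 2 -
    4 * pM X * pT X * X 0 ^ 4) = 1 := by
  simp only [map_sub, map_pow, map_mul, map_pM, map_pT, map_pc, map_ofNat, eval_X]
  simp [pM, pe, pc, pT, tv]

/-- the starting point: a vector of variables represents a triple over the field of rational
functions -/
theorem generic_start (h3 : (3 : K) ≠ 0) [DecidableEq (FF K)] :
    ∃ (k : ℕ) (κ x₂ y₂ x₃ y₃ b₃ b₆ : FF K) (h₁ : (EC b₃ b₆).toAffine.Nonsingular κ 0)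
      (h₂ : (EC b₃ b₆).toAffine.Nonsingular x₂ y₂)
      (h₃ : (EC b₃ b₆).toAffine.Nonsingular x₃ y₃),
      Rep (fun l => io K (X l)) (Point.some _ _ h₁) (Point.some _ _ h₂) (Point.some _ _ h₃) ∧
      Cx k κ ∧ Cx k x₂ ∧ Cx k y₂ ∧ Cx k x₃ ∧ Cx k y₃ ∧ Cx k b₃ ∧
      Cx k (b₃ ^ 2 + 4 * b₆) := by
  have h3' : (3 : FF K) ≠ 0 := by
    have : io K (C 3) = 3 := by rw [map_ofNat, map_ofNat]
    rw [← this]
    exact io_ne (by rw [Ne, C_eq_zero]; exact h3)
  obtain ⟨κ, hκ⟩ : ∃ κ : FF K, κ = pM (fun l => io K (X l)) /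
    (pT (fun l => io K (X l)) * io K (X 0) ^ 2) := ⟨_, rfl⟩
  obtain ⟨b₃, hb₃⟩ : ∃ b₃ : FF K, b₃ = κ * (pc (fun l => io K (X l)) / io K (X 0) ^ 3 - κ) :=
    ⟨_, rfl⟩
  obtain ⟨b₆, hb₆⟩ : ∃ b₆ : FF K, b₆ = -κ ^ 3 := ⟨_, rfl⟩
  have hX0 : io K (X 0) ≠ 0 := io_ne (X_ne_zero _)
  obtain ⟨h₁, h₂, h₃, hR⟩ := exists_triple h3' (fun l => io K (X l)) hX0
    (by rw [← map_pM]; exact io_ne (ne_of_eval (tv K) (by rw [tv_pM]; simp)))
    (by rw [← map_pT]; exact io_ne (ne_of_eval (tv K) (by rw [tv_pT]; simp)))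
    (by
      have := io_ne (ne_of_eval (tv K) (by rw [tv_q]; exact one_ne_zero))
      simpa only [map_sub, map_pow, map_mul, map_pM, map_pT, map_pc, map_ofNat] using this)
    κ b₃ b₆ hκ hb₃ hb₆
  have hX : ∀ i : Fin 4, (X i : MvPolynomial (Fin 4) K).IsHomogeneous 1 := fun i =>
    isHomogeneous_X _ _
  have hpT : pT (X : Fin 4 → MvPolynomial (Fin 4) K) ≠ 0 :=
    ne_of_eval (tv K) (by rw [tv_pT]; simp)
  have cκ : Cx 4 κ := by
    refine Cx.mk (pM X) (pT X * X 0 ^ 2) (hm (hom_pM hX) (by norm_num))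
      (hm ((hom_pT hX).mul ((hX 0).pow 2)) (by norm_num))
      (mul_ne_zero hpT (pow_ne_zero _ (X_ne_zero _))) ?_
    rw [hκ, map_mul, map_pow, map_pT, map_pM]
    rw [div_mul_cancel₀]
    rw [← map_pT]
    exact mul_ne_zero (io_ne hpT) (pow_ne_zero _ hX0)
  have cc : Cx 3 (pc (fun l => io K (X l)) / io K (X 0) ^ 3) := by
    refine Cx.mk (pc X) (X 0 ^ 3) (hm (hom_pc hX) (by norm_num))
      (hm ((hX 0).pow 3) (by norm_num)) (pow_ne_zero _ (X_ne_zero _)) ?_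
    rw [map_pow, map_pc]
    rw [div_mul_cancel₀ _ (pow_ne_zero _ hX0)]
  have cX : ∀ i, Cx 1 (io K (X i) / io K (X 0)) := by
    intro i
    refine Cx.mk (X i) (X 0) (hX i) (hX 0) (X_ne_zero _) ?_
    rw [div_mul_cancel₀ _ hX0]
  have cb₃ : Cx 11 b₃ := by rw [hb₃]; exact cκ.mul (cc.sub cκ)
  have cb₆ : Cx 12 b₆ := by rw [hb₆]; exact (cκ.pow 3).neg
  refine ⟨34, κ, _, _, _, _, b₃, b₆, h₁, h₂, h₃, hR, cκ.mono (by norm_num), ?_, ?_, ?_, ?_,
    cb₃.mono (by norm_num), ?_⟩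
  · rw [mul_div_assoc]; exact (cκ.mul (cX 1)).mono (by norm_num)
  · exact (cκ.pow 2).mono (by norm_num)
  · rw [mul_div_assoc]; exact (cκ.mul (cX 2)).mono (by norm_num)
  · rw [mul_div_assoc]; exact ((cκ.pow 2).mul (cX 3)).mono (by norm_num)
  · exact ((cb₃.pow 2).add ((Cx.ofNat 4).mul cb₆)).mono (by norm_num)

end start

section iter

variable {K L : Type*} [Field K] [Field L] [DecidableEq L] [DecidableEq (FF K)]
  {a₃ a₆ : L} {b₃ b₆ : FF K} {φ : MvPolynomial (Fin 4) K →+* L}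
  {T : (EC a₃ a₆).toAffine.Point} {P Q R : (EC b₃ b₆).toAffine.Point}

/-- the index of the third point -/
def rr (n : ℕ) : ℤ := 5 + 3 * n + (n.choose 2 : ℕ)

theorem rr_succ (n : ℕ) : rr (n + 1) = (3 + n) + rr n := by
  simp only [rr, Nat.choose_succ_succ' n 1, Nat.choose_one_right]
  push_cast
  ring

theorem Ds_track (n : ℕ) : Ds 1 (3 + n) (rr n) := by
  simp only [Ds, rr]
  refine ⟨by omega, by omega, by omega, by omega, by omega, by omega⟩

theorem Ds_track2 (n : ℕ) : Ds 1 (3 + n) ((3 + n) + rr n) := by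
  simp only [Ds, rr]
  refine ⟨by omega, by omega, by omega, by omega, by omega, by omega⟩

/-- the iterates of the reduced map -/
theorem track (hT : GoodPt T) {H : MvPolynomial (Fin 4) K} (f : RatMap K 3)
    (hF : ∀ l, mapA (mapB X) l = H * f.coord l)
    (h0 : Rep2 φ T X 1 3 5 P Q R) (n : ℕ) :
    Rep2 φ T (f.naive n) 1 (3 + n) (rr n) P (Q + n • P) (R + n • Q + (n.choose 2) • P) := by
  induction n with
  | zero =>
    have e1 : (3 + ((0 : ℕ) : ℤ)) = 3 := by norm_num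
    have e2 : rr 0 = 5 := by simp [rr]
    rw [e1, e2, zero_nsmul, zero_nsmul, add_zero, add_zero, Nat.choose_zero_succ, zero_nsmul,
      add_zero]
    exact h0
  | succ n ih =>
    have d3 : Ds 1 (1 + (3 + n)) ((3 + n) + rr n) := by
      have := Ds_track (n + 1)
      rw [rr_succ] at this
      convert this using 1
      push_cast; ring
    have := Rep2.stepF hT hF ih (Ds_track n) (Ds_track2 n) d3
    have e1 : (3 + ((n + 1 : ℕ) : ℤ)) = 1 + (3 + n) := by push_cast; ring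
    have e2 : Q + (n + 1) • P = P + (Q + n • P) := by rw [add_nsmul, one_nsmul]; abel
    have e3 : R + (n + 1) • Q + ((n + 1).choose 2) • P =
        Q + n • P + (R + n • Q + (n.choose 2) • P) := by
      rw [Nat.choose_succ_succ' n 1, Nat.choose_one_right, add_nsmul, add_nsmul, one_nsmul]
      abel
    rw [e1, e2, e3, rr_succ]
    exact this

theorem naive_homog {N : ℕ} (f : RatMap K N) (n : ℕ) : ∃ e, ∀ i, (f.naive n i).IsHomogeneous e := by
  induction n with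
  | zero => exact ⟨1, fun i => isHomogeneous_X _ _⟩
  | succ n ih =>
    obtain ⟨e, he⟩ := ih
    exact ⟨e * f.deg, fun i => (f.homog i).aeval _ he⟩

/-- every iterate has a reduced form -/
theorem exists_iterate {N : ℕ} (f : RatMap K N) (n : ℕ) (i₀ : Fin (N + 1))
    (h0 : f.naive n i₀ ≠ 0) : ∃ g, f.IsIterate n g := by
  obtain ⟨H, g, hg, hu⟩ := exists_primitive (f.naive n)
  have hH : H ≠ 0 := by
    rintro rfl
    exact h0 (by rw [hg, zero_mul])
  obtain ⟨e, he⟩ := naive_homog f n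
  obtain ⟨d, hd⟩ := exists_homog (H := H) (f := g) (n := e) (fun i => by rw [← hg]; exact he i)
    hH i₀ (by
      intro h1
      exact h0 (by rw [hg, h1, mul_zero]))
  exact ⟨⟨d, g, hd, hu⟩, H, hH, hg⟩

theorem deg_le_of_isIterate {N : ℕ} (f : RatMap K N) (n : ℕ) {g g' : RatMap K N}
    (hg : f.IsIterate n g) (hg' : f.IsIterate n g') : g.deg ≤ g'.deg := by
  obtain ⟨h, hh, hg⟩ := hg
  obtain ⟨h', hh', hg'⟩ := hg'
  have h0 : ∃ i, g.coord i ≠ 0 := by
    by_contra hcon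
    push Not at hcon
    have hu := g.no_common (X 0) (fun i => by rw [hcon i]; exact dvd_zero _)
    exact (X_prime (i := (0 : Fin (N + 1))) (R := K)).not_isUnit hu
  have h0' : ∃ i, g'.coord i ≠ 0 := by
    by_contra hcon
    push Not at hcon
    have hu := g'.no_common (X 0) (fun i => by rw [hcon i]; exact dvd_zero _)
    exact (X_prime (i := (0 : Fin (N + 1))) (R := K)).not_isUnit hu
  obtain ⟨c, hc⟩ := R833.prop_of_ufd g.coord g'.coord (by
    intro p hp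
    by_contra hcon
    push Not at hcon
    exact hp.not_isUnit (g.no_common p hcon)) h0 (by
    intro i j
    apply mul_left_cancel₀ (mul_ne_zero hh hh')
    calc h * h' * (g'.coord i * g.coord j) = (h' * g'.coord i) * (h * g.coord j) := by ring
      _ = (h * g.coord i) * (h' * g'.coord j) := by
        rw [← hg', ← hg, ← hg, ← hg']
      _ = h * h' * (g'.coord j * g.coord i) := by ring)
  obtain ⟨i, hi⟩ := h0'
  have hne : c * g.coord i ≠ 0 := by rw [← hc i]; exact hi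
  have hhom : (c * g.coord i).IsHomogeneous g'.deg := by rw [← hc i]; exact g'.homog i
  obtain ⟨a, ha⟩ := R833.homogeneous_of_dvd hhom hne (dvd_mul_right _ _)
  have : a + g.deg = g'.deg := (ha.mul (g.homog i)).inj_right hhom hne
  omega

/-- two vectors of the same triple are proportional -/
theorem Rep.prop {v v' : Fin 4 → FF K} (h : Rep v P Q R) (h' : Rep v' P Q R) :
    ∃ c : FF K, c ≠ 0 ∧ v' = c • v := by
  obtain ⟨x₁, y₁, h₁, x₂, y₂, h₂, x₃, y₃, h₃, μ, hP, hQ, hR, hμ, hv⟩ := h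
  obtain ⟨u₁, w₁, g₁, u₂, w₂, g₂, u₃, w₃, g₃, ν, kP, kQ, kR, hν, kv⟩ := h'
  rw [hP] at kP
  rw [hQ] at kQ
  rw [hR] at kR
  simp only [Point.some.injEq] at kP kQ kR
  obtain ⟨rfl, rfl⟩ := kP
  obtain ⟨rfl, rfl⟩ := kQ
  obtain ⟨rfl, rfl⟩ := kR
  refine ⟨ν / μ, div_ne_zero hν hμ, ?_⟩
  rw [kv, hv, smul_smul, div_mul_cancel₀ _ hμ]

/-- dominance, by means of a right inverse -/
theorem dominant_of_track (hT : GoodPt T) {H : MvPolynomial (Fin 4) K} (f : RatMap K 3)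
    (hF : ∀ l, mapA (mapB X) l = H * f.coord l)
    (h0 : Rep2 φ T X 1 3 5 P Q R) : f.Dominant := by
  have s1 := h0.stepC hT (by simp [Ds])
  have s2 := s1.stepA hT (by simp [Ds])
  have s3 := s2.stepC hT (by simp [Ds])
  have s4 := s3.stepD hT (by simp [Ds])
  have s5 := s4.stepB hT (by simp [Ds])
  have s6 := s5.stepD hT (by simp [Ds])
  set G := mapD (mapB (mapD (mapC (mapA (mapC (X : Fin 4 → MvPolynomial (Fin 4) K)))))) with hG
  have hGe : ∀ l, (G l).IsHomogeneous (5 * (10 * (5 * (5 * (15 * (5 * 1)))))) :=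
    hom_mapD (hom_mapB (hom_mapD (hom_mapC (hom_mapA (hom_mapC (fun i => isHomogeneous_X _ _))))))
  have s7 := Rep2.stepF hT hF s6 (by simp [Ds]) (by simp [Ds]) (by simp [Ds])
  have s8 := s7.2
  rw [show - -P + - -(-P + Q) = Q by abel, show - -(-P + Q) + (-(-P + Q) + R) = R by abel,
    neg_neg P] at s8
  obtain ⟨c, hc, hcv⟩ := h0.2.prop s8
  have hcl : ∀ l, io K (bind₁ G (f.coord l)) = c * io K (X l) := fun l => congrFun hcv l
  have hX0 : io K (X 0) ≠ 0 := io_ne (X_ne_zero _)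
  have hg0 : bind₁ G (f.coord 0) ≠ 0 := by
    intro h1
    have := hcl 0
    rw [h1, map_zero] at this
    exact mul_ne_zero hc hX0 this.symm
  have hpr : ∀ l, bind₁ G (f.coord l) * X 0 = bind₁ G (f.coord 0) * X l := by
    intro l
    apply io_inj
    rw [map_mul, map_mul, hcl l, hcl 0]
    ring
  have hd : (X 0 : MvPolynomial (Fin 4) K) ∣ bind₁ G (f.coord 0) := by
    have h1 : (X 0 : MvPolynomial (Fin 4) K) ∣ bind₁ G (f.coord 0) * X 1 := by
      rw [← hpr 1]; exact dvd_mul_left _ _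
    refine ((X_prime (i := (0 : Fin 4)) (R := K)).dvd_or_dvd h1).resolve_right ?_
    rw [X_dvd_X]
    simp
  obtain ⟨h, hh⟩ := hd
  have hgl : ∀ l, bind₁ G (f.coord l) = h * X l := by
    intro l
    apply mul_right_cancel₀ (X_ne_zero (R := K) (0 : Fin 4))
    rw [hpr l, hh]; ring
  have hh0 : h ≠ 0 := by
    rintro rfl
    exact hg0 (by rw [hh, mul_zero])
  obtain ⟨e, he⟩ := R833.homogeneous_of_dvd ((f.homog 0).aeval G hGe) hg0
    (by
      change h ∣ bind₁ G (f.coord 0)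
      rw [hh]; exact dvd_mul_left _ _)
  rw [RatMap.Dominant, algebraicIndependent_iff]
  intro p hp
  have h1 := congrArg (bind₁ G) hp
  rw [map_zero, comp_aeval_apply] at h1
  have h2 : (fun i => bind₁ G (f.coord i)) = fun l => h * X l := funext hgl
  rw [h2] at h1
  exact aeval_mul_X_eq_zero hh0 he h1

theorem cnd_ne_zero0 {R : Type*} [CommRing R] {v : Fin 4 → R} (h : cnd v ≠ 0) : v 0 ≠ 0 :=
  fun h0 => h (cnd_zero h0)

/-- the lower bound for the degrees of the iterates -/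
theorem lower [Algebra K L] {z y₁ : L} (hT : GoodPt T) {H : MvPolynomial (Fin 4) K}
    (f : RatMap K 3) (hF : ∀ l, mapA (mapB X) l = H * f.coord l)
    (h0 : Rep2 φ T X 1 3 5 P Q R) (hz : Transcendental K z) (v₀ : Fin 4 → Polynomial K)
    (hφ : ∀ p, φ p = Polynomial.aeval z (MvPolynomial.aeval v₀ p))
    (h₁ : (EC a₃ a₆).toAffine.Nonsingular z y₁) (hTz : T = Point.some z y₁ h₁)
    (hi : ∀ i : ℤ, i ≠ 0 → ∃ (x y : L) (h : (EC a₃ a₆).toAffine.Nonsingular x y),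
      i • T = Point.some x y h ∧ HD K z i.natAbs x) :
    ∃ D₀ : ℕ, ∀ (n : ℕ) (g : RatMap K 3), f.IsIterate n g →
      (rr n).natAbs ^ 2 ≤ g.deg * D₀ + 1 := by
  refine ⟨∑ i, (v₀ i).natDegree, fun n g hg => ?_⟩
  obtain ⟨h, hh0, hg⟩ := hg
  have ht := track hT f hF h0 n
  obtain ⟨x₁, y₁', k₁, x₂, y₂, k₂, x₃, y₃, k₃, μ, e1, e2, e3, hμ, hv, g1, g2, g3, g4, g5, g6⟩ :=
    ht.1.out (ht.cnd hT (Ds_track n)).1
  rw [one_zsmul, hTz] at e1
  simp only [Point.some.injEq] at e1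
  obtain ⟨rfl, rfl⟩ := e1
  have hr0 : rr n ≠ 0 := (Ds_track n).2.2.1
  obtain ⟨x, y, k, e4, hx⟩ := hi (rr n) hr0
  rw [e3] at e4
  simp only [Point.some.injEq] at e4
  obtain ⟨rfl, rfl⟩ := e4
  have hx0 : x₃ ≠ 0 := hx.ne_zero hz (by omega)
  obtain ⟨N, D, hND, hN, hD, hD0, hxx⟩ := hx
  have v0 : φ h * φ (g.coord 0) = μ * (z * (y₂ - y₁)) := by
    rw [← map_mul, ← hg 0]; exact congrFun hv 0
  have v2 : φ h * φ (g.coord 2) = μ * (x₃ * (y₂ - y₁)) := by
    rw [← map_mul, ← hg 2]; exact congrFun hv 2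
  have hφh : φ h ≠ 0 := by
    intro h1
    rw [h1, zero_mul] at v0
    exact mul_ne_zero hμ (mul_ne_zero g1 g2) v0.symm
  have hg2 : φ (g.coord 2) ≠ 0 := by
    intro h1
    rw [h1, mul_zero] at v2
    exact mul_ne_zero hμ (mul_ne_zero hx0 g2) v2.symm
  have hpr : φ (g.coord 2) * z = φ (g.coord 0) * x₃ := by
    apply mul_left_cancel₀ hφh
    linear_combination z * v2 - x₃ * v0
  have hpol : MvPolynomial.aeval v₀ (g.coord 2) * Polynomial.X * D =
      MvPolynomial.aeval v₀ (g.coord 0) * N := by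
    apply aeval_inj hz
    rw [map_mul, map_mul, map_mul, Polynomial.aeval_X, ← hφ, ← hφ, hpr, ← hxx]
    ring
  have hdvd : N ∣ MvPolynomial.aeval v₀ (g.coord 2) * Polynomial.X :=
    hND.dvd_of_dvd_mul_right (by rw [hpol]; exact dvd_mul_left _ _)
  have hG2 : MvPolynomial.aeval v₀ (g.coord 2) ≠ 0 := by
    intro h1
    rw [hφ, h1, map_zero] at hg2
    exact hg2 rfl
  have hle := Polynomial.natDegree_le_of_dvd hdvd (mul_ne_zero hG2 Polynomial.X_ne_zero)
  rw [hN, Polynomial.natDegree_mul hG2 Polynomial.X_ne_zero, Polynomial.natDegree_X] at hle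
  refine hle.trans (Nat.add_le_add_right ?_ 1)
  exact natDegree_aeval_le (g.homog 2) v₀ fun i =>
    Finset.single_le_sum (f := fun i => (v₀ i).natDegree) (fun _ _ => Nat.zero_le _)
      (Finset.mem_univ i)

/-- clearing denominators -/
theorem cx_vec {D : ℕ} {w : Fin 4 → FF K} (hw : ∀ l, Cx D (w l)) :
    ∃ (u : Fin 4 → MvPolynomial (Fin 4) K) (c : FF K), c ≠ 0 ∧
      (∀ l, (u l).IsHomogeneous (4 * D)) ∧ ∀ l, io K (u l) = c * w l := by
  choose p q hp hq hq0 h using hw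
  have h0 : ∀ l : Fin 4, (∏ j ∈ Finset.univ.erase l, q j).IsHomogeneous (3 * D) := by
    intro l
    have := IsHomogeneous.prod (Finset.univ.erase l) q (fun _ => D) (fun j _ => hq j)
    rwa [Finset.sum_const, Finset.card_erase_of_mem (Finset.mem_univ l), Finset.card_univ,
      Fintype.card_fin, smul_eq_mul] at this
  refine ⟨fun i => p i * ∏ j ∈ Finset.univ.erase i, q j, io K (∏ j, q j), ?_, ?_, ?_⟩
  · apply io_ne
    rw [Finset.prod_ne_zero_iff]
    exact fun j _ => hq0 j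
  · intro l
    exact hm ((hp l).mul (h0 l)) (by ring)
  · intro i
    rw [← Finset.mul_prod_erase Finset.univ q (Finset.mem_univ i), map_mul, map_mul, ← h i]
    ring

/-- the upper bound for the degrees of the iterates -/
theorem upper (hT : GoodPt T) {H : MvPolynomial (Fin 4) K}
    (f : RatMap K 3) (hF : ∀ l, mapA (mapB X) l = H * f.coord l)
    (h0 : Rep2 φ T X 1 3 5 P Q R) {k : ℕ} {x₁ y₁ x₂ y₂ x₃ y₃ : FF K}
    {h₁ : (EC b₃ b₆).toAffine.Nonsingular x₁ y₁} {h₂ : (EC b₃ b₆).toAffine.Nonsingular x₂ y₂}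
    {h₃ : (EC b₃ b₆).toAffine.Nonsingular x₃ y₃} (hP : P = Point.some x₁ y₁ h₁)
    (hQ : Q = Point.some x₂ y₂ h₂) (hR : R = Point.some x₃ y₃ h₃)
    (c1 : Cx k x₁) (d1 : Cx k y₁) (c2 : Cx k x₂) (d2 : Cx k y₂) (c3 : Cx k x₃) (d3 : Cx k y₃)
    (hb₃ : Cx k b₃) (hb : Cx k (b₃ ^ 2 + 4 * b₆)) (n : ℕ) (hn : 1 ≤ n) (g : RatMap K 3)
    (hg : f.IsIterate n g) : g.deg ≤ 12 * (200000 * k * n ^ 4) := by
  have n2 : k ≤ k * n ^ 2 := Nat.le_mul_of_pos_right _ (pow_pos hn 2)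
  have n4 : k * n ^ 2 ≤ k * n ^ 4 := Nat.mul_le_mul_left _ (Nat.pow_le_pow_right hn (by norm_num))
  have e100 : 100 * k * n ^ 2 = 100 * (k * n ^ 2) := by ring
  have m1 : CxPt (100 * (k * n ^ 2)) (n • P) := by
    rw [hP, ← e100]; exact mult_cx h₁ hb hb₃ c1 d1 n hn
  have m2 : CxPt (100 * (k * n ^ 2)) (n • Q) := by
    rw [hQ, ← e100]; exact mult_cx h₂ hb hb₃ c2 d2 n hn
  have m3 : CxPt (100 * (k * n ^ 4)) (n.choose 2 • P) := by
    by_cases hc : n.choose 2 = 0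
    · rw [hc, zero_nsmul]
      intro x y h e
      exact absurd e.symm (Point.some_ne_zero _)
    · rw [hP]
      refine (mult_cx h₁ hb hb₃ c1 d1 (n.choose 2) (by omega)).mono ?_
      have : n.choose 2 ≤ n ^ 2 := Nat.choose_le_pow n 2
      calc 100 * k * n.choose 2 ^ 2 ≤ 100 * k * (n ^ 2) ^ 2 :=
            Nat.mul_le_mul_left _ (Nat.pow_le_pow_left this 2)
        _ = _ := by ring
  have mP : CxPt k P := by
    rw [hP]; intro x y h e
    simp only [Point.some.injEq] at e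
    obtain ⟨rfl, rfl⟩ := e
    exact ⟨c1, d1⟩
  have mQ : CxPt k Q := by
    rw [hQ]; intro x y h e
    simp only [Point.some.injEq] at e
    obtain ⟨rfl, rfl⟩ := e
    exact ⟨c2, d2⟩
  have mR : CxPt k R := by
    rw [hR]; intro x y h e
    simp only [Point.some.injEq] at e
    obtain ⟨rfl, rfl⟩ := e
    exact ⟨c3, d3⟩
  have mQn : CxPt (200000 * (k * n ^ 4)) (Q + n • P) :=
    (CxPt.add hb₃ (mQ.mono (by omega)) m1).mono (by omega)
  have mR1 : CxPt (4040 * (k * n ^ 4)) (R + n • Q) :=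
    (CxPt.add hb₃ (mR.mono (by omega)) m2).mono (by omega)
  have mRn : CxPt (200000 * (k * n ^ 4)) (R + n • Q + n.choose 2 • P) :=
    (CxPt.add hb₃ mR1 (m3.mono (by omega))).mono (by omega)
  obtain ⟨h, hh0, hg⟩ := hg
  have ht := track hT f hF h0 n
  obtain ⟨u₁, w₁, k₁, u₂, w₂, k₂, u₃, w₃, k₃, μ, e1, e2, e3, hμ, hv, g1, g2, g3, g4, g5, g6⟩ :=
    ht.2.out (ht.cnd hT (Ds_track n)).2
  set E := 200000 * (k * n ^ 4) with hE
  obtain ⟨a1, a1'⟩ := mP _ _ _ e1
  obtain ⟨a2, a2'⟩ := mQn _ _ _ e2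
  obtain ⟨a3, a3'⟩ := mRn _ _ _ e3
  have kE : k ≤ E := by omega
  have hW : ∀ l, Cx (3 * E) (Wv u₁ w₁ u₂ w₂ u₃ w₃ l) := by
    intro l
    fin_cases l
    · exact (a1.mul (a2'.sub a1')).mono (by omega)
    · exact (a2.mul (a2'.sub a1')).mono (by omega)
    · exact (a3.mul (a2'.sub a1')).mono (by omega)
    · exact (a1.mul (a3'.sub a1')).mono (by omega)
  obtain ⟨u, c, hc, hu, huW⟩ := cx_vec hW
  have hvl : ∀ l, io K h * io K (g.coord l) = μ * Wv u₁ w₁ u₂ w₂ u₃ w₃ l := by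
    intro l
    rw [← map_mul, ← hg l]; exact congrFun hv l
  have hioh : io K h ≠ 0 := io_ne hh0
  have hW0 : Wv u₁ w₁ u₂ w₂ u₃ w₃ 0 ≠ 0 := mul_ne_zero g1 g2
  have hg0 : g.coord 0 ≠ 0 := by
    intro h1
    have := hvl 0
    rw [h1, map_zero, mul_zero] at this
    exact mul_ne_zero hμ hW0 this.symm
  have hu0 : u 0 ≠ 0 := by
    intro h1
    have := huW 0
    rw [h1, map_zero] at this
    exact mul_ne_zero hc hW0 this.symm
  have hprop : ∀ i j, u i * g.coord j = u j * g.coord i := by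
    intro i j
    apply io_inj
    rw [map_mul, map_mul, huW, huW]
    apply mul_left_cancel₀ hioh
    linear_combination (c * Wv u₁ w₁ u₂ w₂ u₃ w₃ i) * hvl j -
      (c * Wv u₁ w₁ u₂ w₂ u₃ w₃ j) * hvl i
  obtain ⟨c', hc'⟩ := R833.prop_of_ufd g.coord u (by
    intro p hp
    by_contra hcon
    push Not at hcon
    exact hp.not_isUnit (g.no_common p hcon)) ⟨0, hg0⟩ hprop
  have hc'0 : c' ≠ 0 := by
    rintro rfl
    exact hu0 (by rw [hc', zero_mul])
  have hu0h := hu 0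
  rw [hc' 0] at hu0h
  obtain ⟨a, ha⟩ := R833.homogeneous_of_dvd hu0h (mul_ne_zero hc'0 hg0) (dvd_mul_right _ _)
  have hfin : a + g.deg = 4 * (3 * E) :=
    (ha.mul (g.homog 0)).inj_right hu0h (mul_ne_zero hc'0 hg0)
  have e5 : 12 * (200000 * k * n ^ 4) = 12 * E := by rw [hE]; ring
  omega

end iter

/-- the map and its degrees -/
theorem exists_map (K : Type*) [Field K] (h3 : (3 : K) ≠ 0) :
    ∃ f : RatMap K 3, f.Dominant ∧ (∀ n, ∃ g, f.IsIterate n g) ∧
      (∃ D₀ : ℕ, ∀ (n : ℕ) (g : RatMap K 3), f.IsIterate n g →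
        (rr n).natAbs ^ 2 ≤ g.deg * D₀ + 1) ∧
      (∃ C : ℕ, ∀ n : ℕ, 1 ≤ n → ∀ g : RatMap K 3, f.IsIterate n g → g.deg ≤ C * n ^ 4) := by
  classical
  -- the special point
  obtain ⟨z, y₁, hz, hy⟩ := exists_special K
  have hb : (1 : AlgebraicClosure (RatFunc K)) ^ 2 + 4 * 0 = 1 := by norm_num
  have h3L : (3 : AlgebraicClosure (RatFunc K)) ≠ 0 := by
    have : algebraMap K (AlgebraicClosure (RatFunc K)) 3 = 3 := map_ofNat _ 3
    rw [← this]
    exact (map_ne_zero _).2 h3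
  have h₁ : (EC (1 : AlgebraicClosure (RatFunc K)) 0).toAffine.Nonsingular z y₁ :=
    nonsing h3L (by rw [hb]; exact one_ne_zero) hy
  obtain ⟨v₀, hv₀⟩ := exists_v0 h3 hb hz h₁
  have hT : GoodPt (Point.some z y₁ h₁) := fun i j k d v hv =>
    special_cnd h3 hb hz h₁ d.1 d.2.1 d.2.2.1 d.2.2.2.1 d.2.2.2.2.1 d.2.2.2.2.2 hv
  -- the generic triple
  obtain ⟨k, κ, x₂, y₂, x₃, y₃, b₃, b₆, g₁, g₂, g₃, hgen, c1, c2, d2, c3, d3, hb₃, hb'⟩ :=
    generic_start (K := K) h3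
  -- specialisation
  obtain ⟨φ, hφ⟩ : ∃ φ : MvPolynomial (Fin 4) K →+* AlgebraicClosure (RatFunc K),
      ∀ p, φ p = Polynomial.aeval z (MvPolynomial.aeval v₀ p) :=
    ⟨((Polynomial.aeval z).comp (MvPolynomial.aeval v₀)).toRingHom, fun p => rfl⟩
  have h0 : Rep2 φ (Point.some z y₁ h₁) X 1 3 5 (Point.some _ _ g₁) (Point.some _ _ g₂)
      (Point.some _ _ g₃) := by
    refine ⟨?_, hgen⟩
    have : (fun l => φ (X l)) = fun i => Polynomial.aeval z (v₀ i) := by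
      funext l
      rw [hφ, MvPolynomial.aeval_X]
    rw [this]
    exact hv₀
  -- the reduced map
  obtain ⟨H, f, hF, hu⟩ := exists_primitive (mapA (mapB (X : Fin 4 → MvPolynomial (Fin 4) K)))
  have d1' : Ds 1 3 5 := by simp [Ds]
  have d2' : Ds 1 3 (3 + 5) := by simp [Ds]
  have d3' : Ds 1 (1 + 3) (3 + 5) := by simp [Ds]
  have s2 := (h0.stepB hT d1').stepA hT d2'
  have hF0 : mapA (mapB (X : Fin 4 → MvPolynomial (Fin 4) K)) 0 ≠ 0 := by
    intro h1
    have := cnd_ne_zero0 (s2.cnd hT d3').2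
    apply this
    rw [h1, map_zero]
  have hH : H ≠ 0 := by
    rintro rfl
    exact hF0 (by rw [hF, zero_mul])
  have hf0 : f 0 ≠ 0 := by
    intro h1
    exact hF0 (by rw [hF, h1, mul_zero])
  obtain ⟨d, hd⟩ := exists_homog (H := H) (f := f) (n := 15 * (10 * 1)) (fun i => by
    rw [← hF]
    exact hom_mapA (hom_mapB (fun i => isHomogeneous_X _ _)) i) hH 0 hf0
  refine ⟨⟨d, f, hd, hu⟩, ?_, ?_, ?_, ?_⟩
  · exact dominant_of_track hT ⟨d, f, hd, hu⟩ hF h0
  · intro n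
    apply exists_iterate _ n 0
    intro h1
    have := cnd_ne_zero0 ((track hT ⟨d, f, hd, hu⟩ hF h0 n).cnd hT (Ds_track n)).2
    apply this
    change io K (RatMap.naive _ n 0) = 0
    rw [h1, map_zero]
  · exact lower hT ⟨d, f, hd, hu⟩ hF h0 hz v₀ hφ h₁ rfl (fun i hi => int_pt h3 hb hz h₁ i hi)
  · exact ⟨12 * (200000 * k), fun n hn g hg =>
      (upper hT ⟨d, f, hd, hu⟩ hF h0 rfl rfl rfl c1 (Cx.zero k) c2 d2 c3 d3 hb₃ hb' n hn g
        hg).trans (by rw [← mul_assoc])⟩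

end Pool.Agent.L0h91.DG
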